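import Mathlib

set_option autoImplicit false

/-! Increasing sequences of 0-1 blocks of length `T` have at most `2^T` members. -/

namespace Pool.Agent.Lib.MP_b66a5a_lc

open scoped Classical in
/-- The word of length `T` of the set `X` starting at `p`, in the lexicographic order. -/
noncomputable def word (T : ℕ) (X : Set ℕ) (p : ℕ) : Lex (Fin T → Bool) :=
  toLex fun t : Fin T => decide (p + t ∈ X)

theorem word_apply (T : ℕ) (X : Set ℕ) (p : ℕ) (t : Fin T) :
    (word T X p t = true) ↔ p + t ∈ X := by
  exact @decide_eq_true_iff _ (Classical.propDecidable _)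

theorem word_lt_iff (T : ℕ) (X : Set ℕ) (p : ℕ) :
    word T X p < word T X (p + T) ↔
      ∃ u, p ≤ u ∧ u < p + T ∧ u ∉ X ∧ u + T ∈ X ∧
        ∀ v, p ≤ v → v < u → (v ∈ X ↔ v + T ∈ X) := by
  constructor
  · rintro ⟨i, hi, hlt⟩
    have h1 : word T X p i = false ∧ word T X (p + T) i = true := by
      have : word T X p i < word T X (p + T) i := hlt
      revert this
      generalize word T X p i = b1
      generalize word T X (p + T) i = b2
      revert b1 b2
      decide
    refine ⟨p + i, by omega, by omega, ?_, ?_, ?_⟩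
    · intro h
      rw [(word_apply T X p i).mpr h] at h1
      exact absurd h1.1 (by decide)
    · have := (word_apply T X (p + T) i).mp h1.2
      rwa [show p + i + T = p + T + i by omega]
    · intro v hv hvu
      have hj : v - p < T := by omega
      have hji : (⟨v - p, hj⟩ : Fin T) < i := by
        rw [Fin.lt_def]; show v - p < i; omega
      have h2 : word T X p ⟨v - p, hj⟩ = word T X (p + T) ⟨v - p, hj⟩ := hi _ hji
      have e1 := word_apply T X p ⟨v - p, hj⟩
      have e2 := word_apply T X (p + T) ⟨v - p, hj⟩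
      rw [h2] at e1
      rw [e1] at e2
      rw [show p + (v - p) = v by omega, show p + T + (v - p) = v + T by omega] at e2
      exact e2
  · rintro ⟨u, h1, h2, h3, h4, h5⟩
    have hj : u - p < T := by omega
    refine ⟨⟨u - p, hj⟩, ?_, ?_⟩
    · intro j hji
      have hj2 : (j : ℕ) < u - p := hji
      have h6 := h5 (p + j) (by omega) (by omega)
      have e1 := word_apply T X p j
      have e2 := word_apply T X (p + T) j
      rw [show p + T + (j : ℕ) = p + j + T by omega, ← h6, ← e1] at e2
      exact (Bool.eq_iff_iff.mpr e2.symm)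
    · have e1 : word T X p ⟨u - p, hj⟩ = false := by
        rw [Bool.eq_false_iff]
        intro h
        have := (word_apply T X p ⟨u - p, hj⟩).mp h
        rw [show p + (u - p) = u by omega] at this
        exact h3 this
      have e2 : word T X (p + T) ⟨u - p, hj⟩ = true := by
        apply (word_apply T X (p + T) ⟨u - p, hj⟩).mpr
        rw [show p + T + (u - p) = u + T by omega]
        exact h4
      show word T X p ⟨u - p, hj⟩ < word T X (p + T) ⟨u - p, hj⟩
      rw [e1, e2]
      decide

/-- `B` marks the beginnings of the blocks of length `T` in `[a, b]`. -/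
def BlkN (T a b : ℕ) (B : Set ℕ) : Prop :=
  a ∈ B ∧ b ∈ B ∧ a < b ∧
  (∀ i j, a ≤ i → j = i + T → j ≤ b → i ∈ B → j ∈ B) ∧
  (∀ j, a < j → j ≤ b → j ∈ B → ∃ i, a ≤ i ∧ j = i + T ∧ i ∈ B)

/-- Consecutive blocks increase in the lexicographic order. -/
def IncN (T a b : ℕ) (B X : Set ℕ) : Prop :=
  ∀ i, i ∈ B → a ≤ i → i + T + T ≤ b → ∃ u, i ≤ u ∧ u < i + T ∧ u ∉ X ∧ u + T ∈ X ∧
    ∀ v, i ≤ v → v < u → (v ∈ X ↔ v + T ∈ X)

/-- The last block consists of ones only. -/
def LastN (T b : ℕ) (X : Set ℕ) : Prop := ∀ j v, b = j + T → j ≤ v → v < b → v ∈ X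

theorem blk_mem {T a b : ℕ} {B : Set ℕ} (hT : 1 ≤ T) (h : BlkN T a b B) (i : ℕ) (hai : a ≤ i)
    (hib : i ≤ b) : i ∈ B ↔ ∃ q, i = a + q * T := by
  obtain ⟨h1, h2, h3, h4, h5⟩ := h
  constructor
  · intro hi
    induction i using Nat.strong_induction_on with
    | _ i ih =>
      by_cases hi0 : i = a
      · exact ⟨0, by omega⟩
      · obtain ⟨j, hj1, hj2, hj3⟩ := h5 i (by omega) hib hi
        obtain ⟨q, hq⟩ := ih j (by omega) hj1 (by omega) hj3
        exact ⟨q + 1, by rw [add_mul]; omega⟩
  · rintro ⟨q, rfl⟩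
    induction q with
    | zero => simpa using h1
    | succ q ih =>
      have e : a + (q + 1) * T = a + q * T + T := by rw [add_mul]; omega
      refine h4 (a + q * T) _ (by omega) e hib (ih (by omega) (by omega))

theorem exists_blk (T a m : ℕ) (hT : 1 ≤ T) (hm : 1 ≤ m) :
    BlkN T a (a + m * T) {i | ∃ q, i = a + q * T} := by
  have hmT : 1 ≤ m * T := Nat.mul_pos hm hT
  refine ⟨⟨0, by omega⟩, ⟨m, rfl⟩, by omega, ?_, ?_⟩
  · rintro i j _ rfl _ ⟨q, rfl⟩
    exact ⟨q + 1, by rw [add_mul]; omega⟩
  · rintro j hj _ ⟨q, rfl⟩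
    rcases q with _ | q
    · simp at hj
    · exact ⟨a + q * T, by omega, by rw [add_mul]; omega, ⟨q, rfl⟩⟩

theorem inc_iff {T a m : ℕ} {B X : Set ℕ} (hT : 1 ≤ T) (h : BlkN T a (a + m * T) B) :
    IncN T a (a + m * T) B X ↔
      StrictMono (fun q : Fin m => word T X (a + (q : ℕ) * T)) := by
  constructor
  · intro hI
    rcases m with _ | m
    · intro q; exact q.elim0
    · rw [Fin.strictMono_iff_lt_succ]
      intro q
      have hq := q.isLt
      have e1 : a + (q : ℕ) * T + T + T ≤ a + (m + 1) * T := by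
        have : ((q : ℕ) + 1 + 1) * T ≤ (m + 1) * T := Nat.mul_le_mul_right T (by omega)
        rw [add_mul, add_mul] at this
        omega
      have := hI (a + (q : ℕ) * T) ((blk_mem hT h _ (by omega) (by omega)).mpr ⟨_, rfl⟩)
        (by omega) e1
      rw [← word_lt_iff] at this
      show word T X (a + (q : ℕ) * T) < word T X (a + ((q : ℕ) + 1) * T)
      rw [add_mul ((q : ℕ)) 1 T, one_mul, ← add_assoc]
      exact this
  · intro hs i hi hai hib
    obtain ⟨q, rfl⟩ := (blk_mem hT h i hai (by omega)).mp hi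
    rw [← word_lt_iff]
    have hqm : q + 1 < m := by
      by_contra hc
      push Not at hc
      have : m * T ≤ (q + 1) * T := Nat.mul_le_mul_right T hc
      rw [add_mul] at this
      omega
    have := @hs ⟨q, by omega⟩ ⟨q + 1, hqm⟩ (by rw [Fin.lt_def]; show q < q + 1; omega)
    have h2 : word T X (a + q * T) < word T X (a + (q + 1) * T) := this
    rw [add_mul, one_mul, ← add_assoc] at h2
    exact h2

theorem last_iff {T a m : ℕ} {X : Set ℕ} (hm : 1 ≤ m) :
    LastN T (a + m * T) X ↔ word T X (a + (m - 1) * T) = toLex (fun _ => true) := by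
  obtain ⟨m, rfl⟩ : ∃ m', m = m' + 1 := ⟨m - 1, by omega⟩
  have e : a + (m + 1) * T = a + m * T + T := by rw [add_mul]; omega
  rw [e, show m + 1 - 1 = m by omega]
  constructor
  · intro h
    funext t
    show word T X (a + m * T) t = true
    rw [word_apply]
    exact h (a + m * T) _ rfl (by omega) (by omega)
  · intro h j v hj hjv hv
    have hj' : j = a + m * T := by omega
    subst hj'
    have h2 : word T X (a + m * T) ⟨v - (a + m * T), by omega⟩ = true := by
      rw [h]; rfl
    rw [word_apply] at h2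
    rwa [show a + m * T + (v - (a + m * T)) = v by omega] at h2

noncomputable instance (T : ℕ) : Fintype (Lex (Fin T → Bool)) :=
  inferInstanceAs (Fintype (Fin T → Bool))

theorem card_words (T : ℕ) : Fintype.card (Lex (Fin T → Bool)) = 2 ^ T := by
  have : Fintype.card (Fin T → Bool) = 2 ^ T := by simp
  exact this

theorem le_ones {T : ℕ} (w : Lex (Fin T → Bool)) : w ≤ toLex (fun _ => true) := by
  have h : ofLex w ≤ (fun _ : Fin T => true) := fun i => Bool.le_true _
  exact Pi.toLex_monotone h

/-- A set of naturals whose words are a given sequence. -/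
theorem exists_words (T a : ℕ) (hT : 1 ≤ T) (m : ℕ) (s : Fin m → Lex (Fin T → Bool)) :
    ∃ X : Set ℕ, ∀ q : Fin m, word T X (a + (q : ℕ) * T) = s q := by
  refine ⟨{i | ∃ (q : Fin m) (t : Fin T), i = a + (q : ℕ) * T + t ∧ s q t = true}, ?_⟩
  intro q
  funext t
  rw [Bool.eq_iff_iff, word_apply]
  constructor
  · rintro ⟨q', t', h, ht⟩
    have h1 : ((q : ℕ) * T + t) = (q' : ℕ) * T + t' := by omega
    have hq : (q : ℕ) = q' := by
      have e1 : ((q : ℕ) * T + t) / T = q := by
        rw [mul_comm, Nat.mul_add_div (by omega), Nat.div_eq_of_lt t.isLt, add_zero]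
      have e2 : ((q' : ℕ) * T + t') / T = q' := by
        rw [mul_comm, Nat.mul_add_div (by omega), Nat.div_eq_of_lt t'.isLt, add_zero]
      rw [← e1, ← e2, h1]
    have hq' : q = q' := Fin.ext hq
    subst hq'
    have ht' : t = t' := Fin.ext (by omega)
    rw [ht']
    exact ht
  · intro h
    exact ⟨q, t, rfl, h⟩

theorem counter (T a b : ℕ) (hT : 1 ≤ T) :
    (∃ B, BlkN T a b B ∧ (∃ X, IncN T a b B X) ∧ (∀ X, IncN T a b B X → LastN T b X)) ↔
      b = a + T * 2 ^ T := by
  have hcard := card_words T
  let e : Fin (2 ^ T) ≃o Lex (Fin T → Bool) := Fintype.orderIsoFinOfCardEq _ hcard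
  have hpos : 0 < 2 ^ T := by positivity
  constructor
  · rintro ⟨B, hB, ⟨X, hX⟩, hall⟩
    obtain ⟨m, hm⟩ := (blk_mem hT hB b hB.2.2.1.le le_rfl).mp hB.2.1
    have hm1 : 1 ≤ m := by
      rcases m with _ | m
      · exact absurd hB.2.2.1 (by omega)
      · omega
    subst hm
    rw [inc_iff hT hB] at hX
    have hle : m ≤ 2 ^ T := by
      have := Fintype.card_le_of_injective _ hX.injective
      rwa [Fintype.card_fin, hcard] at this
    rcases hle.lt_or_eq with hlt | heq
    · exfalso
      obtain ⟨X', hX'⟩ := exists_words T a hT m (fun q => e ⟨q, q.isLt.trans hlt⟩)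
      have hI : IncN T a (a + m * T) B X' := by
        rw [inc_iff hT hB]
        intro q q' hqq'
        show word T X' (a + (q : ℕ) * T) < word T X' (a + (q' : ℕ) * T)
        rw [hX', hX']
        exact e.strictMono hqq'
      have hL := (last_iff hm1).mp (hall X' hI)
      have h1 := hX' ⟨m - 1, by omega⟩
      have h2 : e ⟨m - 1, by omega⟩ = toLex (fun _ => true) := by
        rw [← hL]; exact h1.symm
      have h3 : e ⟨m - 1, by omega⟩ < e ⟨m, hlt⟩ := e.strictMono (by
        rw [Fin.lt_def]; show m - 1 < m; omega)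
      rw [h2] at h3
      exact absurd h3 (not_lt.mpr (le_ones _))
    · rw [heq, mul_comm]
  · intro hb
    have hb' : b = a + 2 ^ T * T := by rw [hb, mul_comm]
    subst hb'
    have hB := exists_blk T a (2 ^ T) hT hpos
    refine ⟨_, hB, ?_, ?_⟩
    · obtain ⟨X, hX⟩ := exists_words T a hT (2 ^ T) (fun q => e q)
      refine ⟨X, ?_⟩
      rw [inc_iff hT hB]
      intro q q' hqq'
      show word T X (a + (q : ℕ) * T) < word T X (a + (q' : ℕ) * T)
      rw [hX, hX]
      exact e.strictMono hqq'
    · intro X hX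
      rw [inc_iff hT hB] at hX
      rw [last_iff hpos]
      have hsurj : Function.Surjective (fun q : Fin (2 ^ T) => word T X (a + (q : ℕ) * T)) := by
        have := (Fintype.bijective_iff_injective_and_card
          (fun q : Fin (2 ^ T) => word T X (a + (q : ℕ) * T))).mpr
          ⟨hX.injective, by rw [Fintype.card_fin, hcard]⟩
        exact this.2
      obtain ⟨q, hq⟩ := hsurj (toLex (fun _ => true))
      apply le_antisymm (le_ones _)
      rw [← hq]
      have hle : q ≤ ⟨2 ^ T - 1, by omega⟩ := by
        rw [Fin.le_def]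
        have := q.isLt
        show (q : ℕ) ≤ 2 ^ T - 1
        omega
      exact hX.monotone hle

end Pool.Agent.Lib.MP_b66a5a_lc
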