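import Mathlib

set_option autoImplicit false

/-
Counting monadic second-order logic over vocabularies of constant, unary and binary symbols,
counting sequences, modular recurrences and Kalmar elementary functions.
-/

namespace Pool.Agent.Lib.MP_b66a5a_lc

/-- A finite vocabulary: the numbers of constant symbols, unary relation symbols and binary
relation symbols. -/
structure Voc where
  consts : ℕ
  unary : ℕ
  binary : ℕ

/-- Terms with `n` first-order variables in scope: variables and constant symbols. -/
inductive Term (τ : Voc) (n : ℕ) : Type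
  | var (i : Fin n) : Term τ n
  | con (i : Fin τ.consts) : Term τ n

/-- Formulas of counting monadic second-order logic in de Bruijn form: `Formula τ n m` is the
type of the formulas whose free first-order variables are among `0, ..., n-1` and whose free set
variables are among `0, ..., m-1`.  A quantifier binds the variable `0` of its body. -/
inductive Formula (τ : Voc) : ℕ → ℕ → Type
  | eq {n m : ℕ} (s t : Term τ n) : Formula τ n m
  | un {n m : ℕ} (i : Fin τ.unary) (t : Term τ n) : Formula τ n m
  | bin {n m : ℕ} (i : Fin τ.binary) (s t : Term τ n) : Formula τ n m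
  | mem {n m : ℕ} (t : Term τ n) (X : Fin m) : Formula τ n m
  | neg {n m : ℕ} (φ : Formula τ n m) : Formula τ n m
  | and {n m : ℕ} (φ ψ : Formula τ n m) : Formula τ n m
  | or {n m : ℕ} (φ ψ : Formula τ n m) : Formula τ n m
  | ex {n m : ℕ} (φ : Formula τ (n + 1) m) : Formula τ n m
  | all {n m : ℕ} (φ : Formula τ (n + 1) m) : Formula τ n m
  | exSet {n m : ℕ} (φ : Formula τ n (m + 1)) : Formula τ n m
  | allSet {n m : ℕ} (φ : Formula τ n (m + 1)) : Formula τ n m
  | count {n m : ℕ} (k q : ℕ) (hq : 0 < q) (φ : Formula τ (n + 1) m) : Formula τ n m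

/-- A structure over the vocabulary `τ` with universe `V`. -/
@[ext]
structure Str (τ : Voc) (V : Type) where
  con : Fin τ.consts → V
  un : Fin τ.unary → V → Prop
  bin : Fin τ.binary → V → V → Prop

/-- The value of a term. -/
def Term.val {τ : Voc} {V : Type} (M : Str τ V) {n : ℕ} (e : Fin n → V) : Term τ n → V
  | .var i => e i
  | .con i => M.con i

/-- Satisfaction of a formula in a structure, for an assignment `e` of the first-order variables
and an assignment `E` of the set variables. -/
def Formula.Sat {τ : Voc} {V : Type} (M : Str τ V) :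
    {n m : ℕ} → Formula τ n m → (Fin n → V) → (Fin m → Set V) → Prop
  | _, _, .eq s t, e, _ => s.val M e = t.val M e
  | _, _, .un i t, e, _ => M.un i (t.val M e)
  | _, _, .bin i s t, e, _ => M.bin i (s.val M e) (t.val M e)
  | _, _, .mem t X, e, E => t.val M e ∈ E X
  | _, _, .neg φ, e, E => ¬ φ.Sat M e E
  | _, _, .and φ ψ, e, E => φ.Sat M e E ∧ ψ.Sat M e E
  | _, _, .or φ ψ, e, E => φ.Sat M e E ∨ ψ.Sat M e E
  | _, _, .ex φ, e, E => ∃ a : V, φ.Sat M (Matrix.vecCons a e) E
  | _, _, .all φ, e, E => ∀ a : V, φ.Sat M (Matrix.vecCons a e) E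
  | _, _, .exSet φ, e, E => ∃ A : Set V, φ.Sat M e (Matrix.vecCons A E)
  | _, _, .allSet φ, e, E => ∀ A : Set V, φ.Sat M e (Matrix.vecCons A E)
  | _, _, .count k q _ φ, e, E =>
      Nat.card {a : V // φ.Sat M (Matrix.vecCons a e) E} ≡ k [MOD q]

/-- The length of a term; indices are written in unary. -/
def Term.length {τ : Voc} {n : ℕ} : Term τ n → ℕ
  | .var i => i + 1
  | .con i => i + 1

/-- The length of a formula; the indices of variables and symbols and the numbers `k, q` of the
counting quantifiers are written in unary. -/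
def Formula.length {τ : Voc} : {n m : ℕ} → Formula τ n m → ℕ
  | _, _, .eq s t => s.length + t.length + 1
  | _, _, .un i t => i + 1 + t.length
  | _, _, .bin i s t => i + 1 + s.length + t.length
  | _, _, .mem t X => t.length + X + 2
  | _, _, .neg φ => φ.length + 1
  | _, _, .and φ ψ => φ.length + ψ.length + 1
  | _, _, .or φ ψ => φ.length + ψ.length + 1
  | _, _, .ex φ => φ.length + 1
  | _, _, .all φ => φ.length + 1
  | _, _, .exSet φ => φ.length + 1
  | _, _, .allSet φ => φ.length + 1
  | _, _, .count k q _ φ => φ.length + k + q + 1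

/-- A sentence: a formula without free variables. -/
abbrev Sentence (τ : Voc) : Type := Formula τ 0 0

/-- `M` is a model of the sentence `φ`. -/
def Models {τ : Voc} {V : Type} (M : Str τ V) (φ : Sentence τ) : Prop :=
  φ.Sat M Fin.elim0 Fin.elim0

/-- The counting sequence `S_φ`: the number of structures with universe `Fin n` that satisfy
`φ`. -/
noncomputable def countSeq {τ : Voc} (φ : Sentence τ) (n : ℕ) : ℕ :=
  Nat.card {M : Str τ (Fin n) // Models M φ}

/-- The sequence `s` satisfies a linear recurrence modulo `m` with the constants `r` and `p`. -/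
def RecurrenceMod (s : ℕ → ℕ) (m r p : ℕ) : Prop :=
  ∃ α : ℕ → ℤ, ∀ n, r ≤ n →
    (s (n + p + 1) : ℤ) ≡ ∑ i ∈ Finset.range (p + 1), α i * (s (n + i) : ℤ) [ZMOD m]

/-- The Kalmar elementary functions of several variables: the smallest class that contains zero,
the projections, successor, addition and truncated subtraction and is closed under composition,
bounded sums and bounded products. -/
inductive Elem : {n : ℕ} → ((Fin n → ℕ) → ℕ) → Prop
  | zero {n : ℕ} : Elem (fun _ : Fin n → ℕ => 0)
  | proj {n : ℕ} (i : Fin n) : Elem (fun v : Fin n → ℕ => v i)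
  | succ : Elem (fun v : Fin 1 → ℕ => v 0 + 1)
  | add : Elem (fun v : Fin 2 → ℕ => v 0 + v 1)
  | sub : Elem (fun v : Fin 2 → ℕ => v 0 - v 1)
  | comp {n k : ℕ} {f : (Fin k → ℕ) → ℕ} {g : Fin k → (Fin n → ℕ) → ℕ} (hf : Elem f)
      (hg : ∀ i, Elem (g i)) : Elem (fun v : Fin n → ℕ => f (fun i => g i v))
  | sum {n : ℕ} {f : (Fin (n + 1) → ℕ) → ℕ} (hf : Elem f) :
      Elem (fun v : Fin (n + 1) → ℕ =>
        ∑ i ∈ Finset.range (v 0), f (Matrix.vecCons i (fun j => v j.succ)))
  | prod {n : ℕ} {f : (Fin (n + 1) → ℕ) → ℕ} (hf : Elem f) :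
      Elem (fun v : Fin (n + 1) → ℕ =>
        ∏ i ∈ Finset.range (v 0), f (Matrix.vecCons i (fun j => v j.succ)))

/-- A function of one variable is Kalmar elementary. -/
def Elementary (f : ℕ → ℕ) : Prop := Elem (fun v : Fin 1 → ℕ => f (v 0))

end Pool.Agent.Lib.MP_b66a5a_lc
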