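import Mathlib
import Pool.Agent.Lib.MP_b66a5a_lc.Defs
import Pool.Agent.Lib.MP_b66a5a_lc.Counter

set_option autoImplicit false

/-! The formulas over one binary relation symbol and their meaning. -/

namespace Pool.Agent.Lib.MP_b66a5a_lc

/-- The vocabulary with one binary relation symbol. -/
abbrev τ₀ : Voc := ⟨0, 0, 1⟩

abbrev F (n m : ℕ) : Type := Formula τ₀ n m

variable {n m : ℕ}

def inn (a : Fin n) (X : Fin m) : F n m := .mem (.var a) X
def rel (a b : Fin n) : F n m := .bin 0 (.var a) (.var b)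
def eqv (a b : Fin n) : F n m := .eq (.var a) (.var b)
def imp (φ ψ : F n m) : F n m := .or (.neg φ) ψ

/-- The set `X` is a module. -/
def mdl (X : Fin m) : F n m :=
  .all (.all (.all (imp (.and (.and (inn (0 : Fin (n + 1)).succ.succ X)
    (inn (0 : Fin (n + 2)).succ X)) (.neg (inn 0 X)))
    (imp (rel 0 (0 : Fin (n + 1)).succ.succ) (rel 0 (0 : Fin (n + 2)).succ)))))

/-- Every module that contains `x` and `v` contains `u`. -/
def le (x u v : Fin n) : F n m :=
  .allSet (imp (.and (mdl 0) (.and (inn x 0) (inn v 0))) (inn u 0))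

def lt (x u v : Fin n) : F n m := .neg (le x v u)

/-- `v` is in the class next to the class of `u` in the preorder of `x`. -/
def cov (n m : ℕ) (x u v : Fin n) : F n m :=
  .and (lt x u v) (.neg (.ex (.and (lt x.succ u.succ 0) (lt x.succ 0 v.succ))))

/-- The set `X` is saturated for the preorder of `x`. -/
def satd (x : Fin n) (X : Fin m) : F n m :=
  .all (.all (imp (.and (le x.succ.succ (0 : Fin (n + 1)).succ 0)
    (le x.succ.succ 0 (0 : Fin (n + 1)).succ)) (imp (inn (0 : Fin (n + 1)).succ X) (inn 0 X))))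

/-- Formulas with three free first-order variables, usable in every context. -/
abbrev Rel3 : Type := (n m : ℕ) → Fin n → Fin n → Fin n → F n m

/-- `B` marks the block beginnings. -/
def blk (d : Rel3) (x a b : Fin n) (B : Fin m) : F n m :=
  .and (inn a B) (.and (inn b B) (.and (lt x a b) (.and
    (.all (.all (imp (.and (.and (le x.succ.succ a.succ.succ (0 : Fin (n + 1)).succ)
      (d _ _ x.succ.succ (0 : Fin (n + 1)).succ 0))
      (.and (le x.succ.succ 0 b.succ.succ) (inn (0 : Fin (n + 1)).succ B))) (inn 0 B))))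
    (.all (imp (.and (.and (lt x.succ a.succ 0) (le x.succ 0 b.succ)) (inn 0 B))
      (.ex (.and (le x.succ.succ a.succ.succ 0)
        (.and (d _ _ x.succ.succ 0 (0 : Fin (n + 1)).succ) (inn 0 B)))))))))

/-- Consecutive blocks of `X` increase. -/
def inc (d : Rel3) (x a b : Fin n) (B X : Fin m) : F n m :=
  .all (.all (.all (imp
    (.and (.and (inn (0 : Fin (n + 1)).succ.succ B)
        (le x.succ.succ.succ a.succ.succ.succ (0 : Fin (n + 1)).succ.succ))
      (.and (.and (d _ _ x.succ.succ.succ (0 : Fin (n + 1)).succ.succ (0 : Fin (n + 2)).succ)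
        (d _ _ x.succ.succ.succ (0 : Fin (n + 2)).succ 0))
        (le x.succ.succ.succ 0 b.succ.succ.succ)))
    (.ex (.ex (.and
      (.and (le x.succ.succ.succ.succ.succ (0 : Fin (n + 1)).succ.succ.succ.succ
          (0 : Fin (n + 4)).succ)
        (lt x.succ.succ.succ.succ.succ (0 : Fin (n + 4)).succ
          (0 : Fin (n + 2)).succ.succ.succ))
      (.and (.and (d _ _ x.succ.succ.succ.succ.succ (0 : Fin (n + 4)).succ 0)
          (.and (.neg (inn (0 : Fin (n + 4)).succ X)) (inn 0 X)))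
        (.all (.all (imp (.and
          (.and (le x.succ.succ.succ.succ.succ.succ.succ
              (0 : Fin (n + 1)).succ.succ.succ.succ.succ.succ (0 : Fin (n + 6)).succ)
            (lt x.succ.succ.succ.succ.succ.succ.succ (0 : Fin (n + 6)).succ
              (0 : Fin (n + 4)).succ.succ.succ))
          (d _ _ x.succ.succ.succ.succ.succ.succ.succ (0 : Fin (n + 6)).succ 0))
          (.and (imp (inn (0 : Fin (n + 6)).succ X) (inn 0 X))
            (imp (inn 0 X) (inn (0 : Fin (n + 6)).succ X)))))))))))))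

/-- The last block consists of ones. -/
def lst (d : Rel3) (x b : Fin n) (X : Fin m) : F n m :=
  .all (.all (imp (.and (d _ _ x.succ.succ (0 : Fin (n + 1)).succ b.succ.succ)
    (.and (le x.succ.succ (0 : Fin (n + 1)).succ 0) (lt x.succ.succ 0 b.succ.succ)))
    (inn 0 X)))

/-- From distance `T` to distance `T * 2 ^ T`. -/
def next (d : Rel3) : Rel3 := fun n m x a b =>
  .exSet (.and (satd x 0) (.and (blk d x a b 0)
    (.and (.exSet (.and (satd x 0) (inc d x a b (0 : Fin (m + 1)).succ 0)))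
      (.allSet (imp (.and (satd x 0) (inc d x a b (0 : Fin (m + 1)).succ 0))
        (lst d x b 0))))))

/-- The formula for distance `T_k`. -/
def D : ℕ → Rel3
  | 0 => cov
  | k + 1 => next (D k)

/-- Modules. -/
def IsMod {V : Type} (R : V → V → Prop) (S : Set V) : Prop :=
  ∀ p q z, p ∈ S → q ∈ S → z ∉ S → R z p → R z q

/-- Every module that contains `x` and `v` contains `u`. -/
def LE' {V : Type} (R : V → V → Prop) (x u v : V) : Prop :=
  ∀ S, IsMod R S → x ∈ S → v ∈ S → u ∈ S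

section sem

variable {V : Type} (M : Str τ₀ V) (e : Fin n → V) (E : Fin m → Set V)

@[simp] theorem sat_inn (a : Fin n) (X : Fin m) : (inn a X).Sat M e E ↔ e a ∈ E X := Iff.rfl
@[simp] theorem sat_rel (a b : Fin n) : (rel a b : F n m).Sat M e E ↔ M.bin 0 (e a) (e b) :=
  Iff.rfl
@[simp] theorem sat_eqv (a b : Fin n) : (eqv a b : F n m).Sat M e E ↔ e a = e b := Iff.rfl
@[simp] theorem sat_neg (φ : F n m) : (Formula.neg φ).Sat M e E ↔ ¬ φ.Sat M e E := Iff.rfl
@[simp] theorem sat_and (φ ψ : F n m) :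
    (Formula.and φ ψ).Sat M e E ↔ φ.Sat M e E ∧ ψ.Sat M e E := Iff.rfl
@[simp] theorem sat_or (φ ψ : F n m) :
    (Formula.or φ ψ).Sat M e E ↔ φ.Sat M e E ∨ ψ.Sat M e E := Iff.rfl
@[simp] theorem sat_imp (φ ψ : F n m) :
    (imp φ ψ).Sat M e E ↔ (φ.Sat M e E → ψ.Sat M e E) := by
  unfold imp
  rw [sat_or, sat_neg]
  tauto
@[simp] theorem sat_all (φ : F (n + 1) m) :
    (Formula.all φ).Sat M e E ↔ ∀ a, φ.Sat M (Matrix.vecCons a e) E := Iff.rfl
@[simp] theorem sat_ex (φ : F (n + 1) m) :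
    (Formula.ex φ).Sat M e E ↔ ∃ a, φ.Sat M (Matrix.vecCons a e) E := Iff.rfl
@[simp] theorem sat_allSet (φ : F n (m + 1)) :
    (Formula.allSet φ).Sat M e E ↔ ∀ A, φ.Sat M e (Matrix.vecCons A E) := Iff.rfl
@[simp] theorem sat_exSet (φ : F n (m + 1)) :
    (Formula.exSet φ).Sat M e E ↔ ∃ A, φ.Sat M e (Matrix.vecCons A E) := Iff.rfl

@[simp] theorem sat_mdl (X : Fin m) : (mdl X : F n m).Sat M e E ↔ IsMod (M.bin 0) (E X) := by
  unfold mdl IsMod
  simp only [sat_all, sat_imp, sat_and, sat_inn, sat_neg, sat_rel, Matrix.cons_val_succ,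
    Matrix.cons_val_zero]
  constructor
  · intro h p q z hp hq hz
    exact h p q z ⟨⟨hp, hq⟩, hz⟩
  · intro h p q z hh
    exact h p q z hh.1.1 hh.1.2 hh.2

@[simp] theorem sat_le (x u v : Fin n) :
    (le x u v : F n m).Sat M e E ↔ LE' (M.bin 0) (e x) (e u) (e v) := by
  unfold le LE'
  simp only [sat_allSet, sat_imp, sat_and, sat_inn, sat_mdl, Matrix.cons_val_zero]
  constructor
  · intro h S h1 h2 h3
    exact h S ⟨h1, h2, h3⟩
  · intro h S hh
    exact h S hh.1 hh.2.1 hh.2.2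

@[simp] theorem sat_lt (x u v : Fin n) :
    (lt x u v : F n m).Sat M e E ↔ ¬ LE' (M.bin 0) (e x) (e v) (e u) := by
  unfold lt
  rw [sat_neg, sat_le]

end sem

/-- The preorder of `x` is given by a rank function onto `{0, ..., h}`. -/
structure Ranked {V : Type} (R : V → V → Prop) (x : V) (ρ : V → ℕ) (h : ℕ) : Prop where
  le_iff : ∀ u v, LE' R x u v ↔ ρ u ≤ ρ v
  surj : ∀ i ≤ h, ∃ u, ρ u = i
  bound : ∀ u, ρ u ≤ h

section ranked

variable {V : Type} {M : Str τ₀ V} {ρ : V → ℕ} {h : ℕ}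

theorem sat_cov {e : Fin n → V} {E : Fin m → Set V} {x u v : Fin n}
    (hr : Ranked (M.bin 0) (e x) ρ h) :
    (cov n m x u v).Sat M e E ↔ ρ (e v) = ρ (e u) + 1 := by
  unfold cov
  simp only [sat_and, sat_neg, sat_ex, sat_lt, Matrix.cons_val_succ, Matrix.cons_val_zero,
    hr.le_iff]
  constructor
  · rintro ⟨h1, h2⟩
    push Not at h1 h2
    by_contra hc
    obtain ⟨w, hw⟩ := hr.surj (ρ (e u) + 1) (by have := hr.bound (e v); omega)
    have := h2 w (by omega)
    omega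
  · intro hv
    refine ⟨by omega, ?_⟩
    rintro ⟨w, h1, h2⟩
    omega

theorem sat_satd {e : Fin n → V} {E : Fin m → Set V} {x : Fin n} {X : Fin m}
    (hr : Ranked (M.bin 0) (e x) ρ h) :
    (satd x X).Sat M e E ↔ ∃ S : Set ℕ, E X = ρ ⁻¹' S := by
  unfold satd
  simp only [sat_all, sat_imp, sat_and, sat_le, sat_inn, Matrix.cons_val_succ,
    Matrix.cons_val_zero, hr.le_iff]
  constructor
  · intro hs
    refine ⟨ρ '' (E X), ?_⟩
    ext u
    constructor
    · intro hu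
      exact ⟨u, hu, rfl⟩
    · rintro ⟨w, hw, hwu⟩
      exact hs w u ⟨hwu.le, hwu.ge⟩ hw
  · rintro ⟨S, hS⟩ u v ⟨h1, h2⟩ hu
    rw [hS] at hu ⊢
    have : ρ u = ρ v := le_antisymm h1 h2
    show ρ v ∈ S
    rw [← this]
    exact hu

/-- `d` means distance `T`. -/
def Means (M : Str τ₀ V) (d : Rel3) (T : ℕ) : Prop :=
  ∀ (n m : ℕ) (e : Fin n → V) (E : Fin m → Set V) (x u v : Fin n) (ρ : V → ℕ) (h : ℕ),
    Ranked (M.bin 0) (e x) ρ h → ((d n m x u v).Sat M e E ↔ ρ (e v) = ρ (e u) + T)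

theorem sat_blk {d : Rel3} {T : ℕ} (hd : Means M d T) {e : Fin n → V} {E : Fin m → Set V}
    {x a b : Fin n} {B : Fin m} {S : Set ℕ} (hr : Ranked (M.bin 0) (e x) ρ h)
    (hB : E B = ρ ⁻¹' S) :
    (blk d x a b B).Sat M e E ↔ BlkN T (ρ (e a)) (ρ (e b)) S := by
  have hd' : ∀ {n' m' : ℕ} (e' : Fin n' → V) (E' : Fin m' → Set V) (x' u' v' : Fin n'),
      e' x' = e x → ((d n' m' x' u' v').Sat M e' E' ↔ ρ (e' v') = ρ (e' u') + T) := by
    intro n' m' e' E' x' u' v' hx
    exact hd n' m' e' E' x' u' v' ρ h (by rw [hx]; exact hr)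
  unfold blk BlkN
  simp only [sat_all, sat_ex, sat_imp, sat_and, sat_le, sat_lt, sat_inn, Matrix.cons_val_succ,
    Matrix.cons_val_zero, hr.le_iff, hB, Set.mem_preimage, not_le]
  refine and_congr Iff.rfl (and_congr Iff.rfl (and_congr Iff.rfl (and_congr ?_ ?_)))
  · constructor
    · intro H i j hai hj hjb hi
      obtain ⟨u, rfl⟩ := hr.surj i (by have := hr.bound (e b); omega)
      obtain ⟨v, rfl⟩ := hr.surj j (by have := hr.bound (e b); omega)
      apply H u v
      refine ⟨⟨hai, ?_⟩, hjb, hi⟩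
      rw [hd' _ _ _ _ _ (by simp)]
      simpa using hj
    · intro H u v hh
      obtain ⟨⟨h1, h2⟩, h3, h4⟩ := hh
      rw [hd' _ _ _ _ _ (by simp)] at h2
      simp only [Matrix.cons_val_succ, Matrix.cons_val_zero] at h2
      exact H _ _ h1 h2 h3 h4
  · constructor
    · intro H j haj hjb hj
      obtain ⟨v, rfl⟩ := hr.surj j (by have := hr.bound (e b); omega)
      obtain ⟨u, h1, h2, h3⟩ := H v ⟨⟨haj, hjb⟩, hj⟩
      rw [hd' _ _ _ _ _ (by simp)] at h2
      simp only [Matrix.cons_val_succ, Matrix.cons_val_zero] at h2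
      exact ⟨ρ u, h1, h2, h3⟩
    · intro H v hh
      obtain ⟨i, h1, h2, h3⟩ := H (ρ v) hh.1.1 hh.1.2 hh.2
      obtain ⟨u, rfl⟩ := hr.surj i (by have := hr.bound v; omega)
      refine ⟨u, h1, ?_, h3⟩
      rw [hd' _ _ _ _ _ (by simp)]
      simpa using h2

theorem sat_lst {d : Rel3} {T : ℕ} (hd : Means M d T) {e : Fin n → V} {E : Fin m → Set V}
    {x b : Fin n} {X : Fin m} {S : Set ℕ} (hr : Ranked (M.bin 0) (e x) ρ h)
    (hX : E X = ρ ⁻¹' S) :
    (lst d x b X).Sat M e E ↔ LastN T (ρ (e b)) S := by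
  have hd' : ∀ {n' m' : ℕ} (e' : Fin n' → V) (E' : Fin m' → Set V) (x' u' v' : Fin n'),
      e' x' = e x → ((d n' m' x' u' v').Sat M e' E' ↔ ρ (e' v') = ρ (e' u') + T) := by
    intro n' m' e' E' x' u' v' hx
    exact hd n' m' e' E' x' u' v' ρ h (by rw [hx]; exact hr)
  unfold lst LastN
  simp only [sat_all, sat_ex, sat_imp, sat_and, sat_le, sat_lt, sat_inn, Matrix.cons_val_succ,
    Matrix.cons_val_zero, hr.le_iff, hX, Set.mem_preimage, not_le]
  constructor
  · intro H j i hj hji hi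
    obtain ⟨u, rfl⟩ := hr.surj i (by have := hr.bound (e b); omega)
    obtain ⟨v, rfl⟩ := hr.surj j (by have := hr.bound (e b); omega)
    apply H v u
    refine ⟨?_, hji, hi⟩
    rw [hd' _ _ _ _ _ (by simp)]
    simpa using hj
  · intro H v u hh
    obtain ⟨h1, h2, h3⟩ := hh
    rw [hd' _ _ _ _ _ (by simp)] at h1
    simp only [Matrix.cons_val_succ, Matrix.cons_val_zero] at h1
    exact H _ _ h1 h2 h3

theorem sat_inc {d : Rel3} {T : ℕ} (hd : Means M d T) {e : Fin n → V} {E : Fin m → Set V}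
    {x a b : Fin n} {B X : Fin m} {S S' : Set ℕ} (hr : Ranked (M.bin 0) (e x) ρ h)
    (hB : E B = ρ ⁻¹' S) (hX : E X = ρ ⁻¹' S') :
    (inc d x a b B X).Sat M e E ↔ IncN T (ρ (e a)) (ρ (e b)) S S' := by
  have hd' : ∀ {n' m' : ℕ} (e' : Fin n' → V) (E' : Fin m' → Set V) (x' u' v' : Fin n'),
      e' x' = e x → ((d n' m' x' u' v').Sat M e' E' ↔ ρ (e' v') = ρ (e' u') + T) := by
    intro n' m' e' E' x' u' v' hx
    exact hd n' m' e' E' x' u' v' ρ h (by rw [hx]; exact hr)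
  unfold inc IncN
  simp only [sat_all, sat_ex, sat_imp, sat_and, sat_le, sat_lt, sat_inn, sat_neg,
    Matrix.cons_val_succ, Matrix.cons_val_zero, hr.le_iff, hB, hX, Set.mem_preimage, not_le]
  have hdd : ∀ {n' m' : ℕ} (e' : Fin n' → V) (E' : Fin m' → Set V) (x' u' v' : Fin n') (p q : V),
      e' x' = e x → e' u' = p → e' v' = q → ((d n' m' x' u' v').Sat M e' E' ↔ ρ q = ρ p + T) := by
    intro n' m' e' E' x' u' v' p q hx hu hv
    rw [hd' e' E' x' u' v' hx, hu, hv]
  constructor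
  · intro H i hi hai hib
    obtain ⟨p, rfl⟩ := hr.surj i (by have := hr.bound (e b); omega)
    obtain ⟨q, hq⟩ := hr.surj (ρ p + T) (by have := hr.bound (e b); omega)
    obtain ⟨r, hrr⟩ := hr.surj (ρ p + T + T) (by have := hr.bound (e b); omega)
    obtain ⟨u, u', ⟨h1, h2⟩, ⟨h3, h4, h5⟩, h6⟩ := H p q r ⟨⟨hi, hai⟩,
      ⟨(hdd _ _ _ _ _ p q (by simp) (by simp) (by simp)).mpr hq,
        (hdd _ _ _ _ _ q r (by simp) (by simp) (by simp)).mpr (by rw [hrr, hq])⟩,
      by rw [hrr]; exact hib⟩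
    rw [hdd _ _ _ _ _ u u' (by simp) (by simp) (by simp)] at h3
    refine ⟨ρ u, h1, by rw [← hq]; exact h2, h4, by rw [← h3]; exact h5, ?_⟩
    intro i' hi'1 hi'2
    obtain ⟨v, rfl⟩ := hr.surj i' (by have := hr.bound (e b); omega)
    obtain ⟨v', hv'⟩ := hr.surj (ρ v + T) (by have := hr.bound (e b); omega)
    have := h6 v v' ⟨⟨hi'1, hi'2⟩, (hdd _ _ _ _ _ v v' (by simp) (by simp) (by simp)).mpr hv'⟩
    rw [hv'] at this
    exact ⟨this.1, this.2⟩
  · intro H p q r hh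
    obtain ⟨⟨h1, h2⟩, ⟨h3, h4⟩, h5⟩ := hh
    rw [hdd _ _ _ _ _ p q (by simp) (by simp) (by simp)] at h3
    rw [hdd _ _ _ _ _ q r (by simp) (by simp) (by simp)] at h4
    obtain ⟨i, g1, g2, g3, g4, g5⟩ := H (ρ p) h1 h2 (by rw [← h3, ← h4]; exact h5)
    obtain ⟨u, rfl⟩ := hr.surj i (by have := hr.bound (e b); omega)
    obtain ⟨u', hu'⟩ := hr.surj (ρ u + T) (by have := hr.bound r; omega)
    refine ⟨u, u', ⟨g1, by omega⟩, ⟨?_, g3, by rw [hu']; exact g4⟩, ?_⟩
    · exact (hdd _ _ _ _ _ u u' (by simp) (by simp) (by simp)).mpr hu'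
    · intro v v' hv
      obtain ⟨⟨k1, k2⟩, k3⟩ := hv
      rw [hdd _ _ _ _ _ v v' (by simp) (by simp) (by simp)] at k3
      have := g5 (ρ v) k1 k2
      rw [← k3] at this
      exact ⟨this.1, this.2⟩

theorem means_next {d : Rel3} {T : ℕ} (hT : 1 ≤ T) (hd : Means M d T) :
    Means M (next d) (T * 2 ^ T) := by
  intro n m e E x a b ρ h hr
  rw [← counter T (ρ (e a)) (ρ (e b)) hT]
  unfold next
  simp only [sat_exSet, sat_and, sat_allSet, sat_imp]
  constructor
  · rintro ⟨A, hA, h1, ⟨A', hA', h2⟩, h3⟩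
    rw [sat_satd hr] at hA hA'
    obtain ⟨S, hS⟩ := hA
    obtain ⟨S', hS'⟩ := hA'
    refine ⟨S, (sat_blk hd hr hS).mp h1, ⟨S', ?_⟩, ?_⟩
    · exact (sat_inc hd hr (by simpa using hS) hS').mp h2
    · intro X hX
      have := h3 (ρ ⁻¹' X) ⟨(sat_satd hr).mpr ⟨X, rfl⟩,
        (sat_inc hd hr (S := S) (S' := X) (by simpa using hS) (by simp)).mpr hX⟩
      exact (sat_lst hd hr (S := X) (by simp)).mp this
  · rintro ⟨S, h1, ⟨S', h2⟩, h3⟩
    refine ⟨ρ ⁻¹' S, (sat_satd hr).mpr ⟨S, rfl⟩, (sat_blk hd hr (by simp)).mpr h1,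
      ⟨ρ ⁻¹' S', (sat_satd hr).mpr ⟨S', rfl⟩,
        (sat_inc hd hr (S := S) (S' := S') (by simp) (by simp)).mpr h2⟩, ?_⟩
    rintro A ⟨hA, h4⟩
    rw [sat_satd hr] at hA
    obtain ⟨X, hX⟩ := hA
    have := h3 X ((sat_inc hd hr (S := S) (S' := X) (by simp) hX).mp h4)
    exact (sat_lst hd hr hX).mpr this

/-- The lengths `T_k`. -/
def T : ℕ → ℕ
  | 0 => 1
  | k + 1 => T k * 2 ^ T k

theorem T_pos (k : ℕ) : 1 ≤ T k := by
  induction k with
  | zero => exact le_rfl
  | succ k ih => exact Nat.mul_pos ih (by positivity)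

theorem means_D (M : Str τ₀ V) (k : ℕ) : Means M (D k) (T k) := by
  induction k with
  | zero =>
    intro n m e E x a b ρ h hr
    exact sat_cov hr
  | succ k ih => exact means_next (T_pos k) ih

end ranked

end Pool.Agent.Lib.MP_b66a5a_lc
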