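import Mathlib
import Pool.Agent.Lib.MP_b66a5a_lc.Defs

set_option autoImplicit false

/-! Kalmar elementary functions are bounded by iterated exponentials. -/

namespace Pool.Agent.Lib.MP_b66a5a_lc

/-- Iterated exponentials. -/
def tw : ℕ → ℕ → ℕ
  | 0, x => x + 2
  | c + 1, x => 2 ^ tw c x

theorem tw_zero (x : ℕ) : tw 0 x = x + 2 := rfl
theorem tw_succ (c x : ℕ) : tw (c + 1) x = 2 ^ tw c x := rfl

theorem tw_ge (c x : ℕ) : x + 2 ≤ tw c x := by
  induction c with
  | zero => exact le_rfl
  | succ c ih =>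
    rw [tw_succ]
    exact ih.trans (Nat.lt_two_pow_self).le

theorem tw_mono_right (c : ℕ) {x y : ℕ} (h : x ≤ y) : tw c x ≤ tw c y := by
  induction c with
  | zero => rw [tw_zero, tw_zero]; omega
  | succ c ih =>
    rw [tw_succ, tw_succ]
    exact Nat.pow_le_pow_right (by norm_num) ih

theorem tw_le_succ (c x : ℕ) : tw c x ≤ tw (c + 1) x := by
  rw [tw_succ]
  exact (Nat.lt_two_pow_self).le

theorem tw_mono_left {c d : ℕ} (h : c ≤ d) (x : ℕ) : tw c x ≤ tw d x := by
  induction h with
  | refl => exact le_rfl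
  | step _ ih => exact ih.trans (tw_le_succ _ x)

theorem add_two_le_two_pow {y : ℕ} (h : 2 ≤ y) : y + 2 ≤ 2 ^ y := by
  induction y, h using Nat.le_induction with
  | base => norm_num
  | succ n hn ih =>
    rw [pow_succ]
    omega

theorem two_mul_le_two_pow {y : ℕ} (h : 2 ≤ y) : 2 * y ≤ 2 ^ y := by
  induction y, h using Nat.le_induction with
  | base => norm_num
  | succ n hn ih =>
    rw [pow_succ]
    omega

theorem tw_tw (c d x : ℕ) : tw c (tw d x) ≤ tw (c + d + 1) x := by
  induction c with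
  | zero =>
    rw [tw_zero, show 0 + d + 1 = d + 1 by omega, tw_succ]
    exact add_two_le_two_pow (by have := tw_ge d x; omega)
  | succ c ih =>
    rw [tw_succ, show c + 1 + d + 1 = (c + d + 1) + 1 by omega, tw_succ]
    exact Nat.pow_le_pow_right (by norm_num) ih

theorem tw_sq (c x : ℕ) : tw c x * tw c x ≤ tw (c + 2) x := by
  have h2 : 2 ≤ tw c x := by have := tw_ge c x; omega
  rw [show c + 2 = (c + 1) + 1 by omega, tw_succ, tw_succ]
  calc tw c x * tw c x ≤ 2 ^ tw c x * 2 ^ tw c x :=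
        Nat.mul_le_mul (Nat.lt_two_pow_self).le (Nat.lt_two_pow_self).le
    _ = 2 ^ (2 * tw c x) := by rw [← pow_add]; congr 1; omega
    _ ≤ 2 ^ (2 ^ tw c x) := Nat.pow_le_pow_right (by norm_num) (two_mul_le_two_pow h2)

theorem tw_pow (c x : ℕ) : tw c x ^ tw c x ≤ tw (c + 3) x := by
  calc tw c x ^ tw c x ≤ (2 ^ tw c x) ^ tw c x :=
        Nat.pow_le_pow_left (Nat.lt_two_pow_self).le _
    _ = 2 ^ (tw c x * tw c x) := by rw [← pow_mul]
    _ ≤ 2 ^ tw (c + 2) x := Nat.pow_le_pow_right (by norm_num) (tw_sq c x)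
    _ = tw (c + 3) x := by rw [← tw_succ]

theorem elem_bound {n : ℕ} {f : (Fin n → ℕ) → ℕ} (hf : Elem f) :
    ∃ c, ∀ (v : Fin n → ℕ) (M : ℕ), (∀ i, v i ≤ M) → f v ≤ tw c M := by
  induction hf with
  | zero => exact ⟨0, fun v M _ => Nat.zero_le _⟩
  | proj i => exact ⟨0, fun v M h => (h i).trans (by rw [tw_zero]; omega)⟩
  | succ =>
    refine ⟨0, fun v M h => ?_⟩
    have h0 := h 0
    show v 0 + 1 ≤ M + 2
    omega
  | add =>
    refine ⟨1, fun v M h => ?_⟩
    have h0 := h 0
    have h1 := h 1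
    have h2 : M + 2 + 2 ≤ 2 ^ (M + 2) := add_two_le_two_pow (by omega)
    have h3 : 2 * (M + 2) ≤ 2 ^ (M + 2) := two_mul_le_two_pow (by omega)
    show v 0 + v 1 ≤ 2 ^ (M + 2)
    omega
  | sub =>
    refine ⟨0, fun v M h => ?_⟩
    have h0 := h 0
    show v 0 - v 1 ≤ M + 2
    omega
  | comp hf hg ihf ihg =>
    obtain ⟨c, hc⟩ := ihf
    choose d hd using ihg
    refine ⟨c + (∑ i, d i) + 1, fun v M h => ?_⟩
    refine (hc _ (tw (∑ i, d i) M) ?_).trans (tw_tw _ _ _)
    intro i
    refine (hd i v M h).trans (tw_mono_left ?_ M)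
    exact Finset.single_le_sum (f := d) (fun j _ => Nat.zero_le _) (Finset.mem_univ i)
  | sum hf ihf =>
    obtain ⟨c, hc⟩ := ihf
    refine ⟨c + 2, fun v M h => ?_⟩
    calc _ ≤ ∑ i ∈ Finset.range (v 0), tw c M := by
          apply Finset.sum_le_sum
          intro i hi
          apply hc
          intro j
          refine Fin.cases ?_ (fun j => ?_) j
          · rw [Matrix.cons_val_zero]
            exact (Finset.mem_range.mp hi).le.trans (h 0)
          · rw [Matrix.cons_val_succ]
            exact h _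
      _ = v 0 * tw c M := by rw [Finset.sum_const, Finset.card_range, smul_eq_mul]
      _ ≤ tw c M * tw c M := Nat.mul_le_mul_right _ ((h 0).trans (by have := tw_ge c M; omega))
      _ ≤ tw (c + 2) M := tw_sq c M
  | prod hf ihf =>
    obtain ⟨c, hc⟩ := ihf
    refine ⟨c + 3, fun v M h => ?_⟩
    calc _ ≤ ∏ i ∈ Finset.range (v 0), tw c M := by
          apply Finset.prod_le_prod
          · intro i _; exact Nat.zero_le _
          intro i hi
          apply hc
          intro j
          refine Fin.cases ?_ (fun j => ?_) j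
          · rw [Matrix.cons_val_zero]
            exact (Finset.mem_range.mp hi).le.trans (h 0)
          · rw [Matrix.cons_val_succ]
            exact h _
      _ = tw c M ^ v 0 := by rw [Finset.prod_const, Finset.card_range]
      _ ≤ tw c M ^ tw c M := Nat.pow_le_pow_right (by have := tw_ge c M; omega)
          ((h 0).trans (by have := tw_ge c M; omega))
      _ ≤ tw (c + 3) M := tw_pow c M

theorem elementary_bound {f : ℕ → ℕ} (hf : Elementary f) : ∃ c, ∀ x, f x ≤ tw c x := by
  obtain ⟨c, hc⟩ := elem_bound hf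
  refine ⟨c, fun x => ?_⟩
  exact hc (fun _ => x) x (fun _ => le_rfl)

end Pool.Agent.Lib.MP_b66a5a_lc
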