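import Mathlib
import Pool.Agent.Lib.MP_b66a5a_lc.Builders

set_option autoImplicit false

/-! The sentences `sent k` and the size of their models. -/

namespace Pool.Agent.Lib.MP_b66a5a_lc

/-- `R` is irreflexive. -/
def ax2 : F 0 0 := .all (.neg (rel 0 0))

/-- The preorders are total. -/
def ax3 : F 0 0 := .all (.all (.all (.or
  (le (0 : Fin 1).succ.succ (0 : Fin 2).succ 0) (le (0 : Fin 1).succ.succ 0 (0 : Fin 2).succ))))

/-- Blocks split into two blocks. -/
def ax4 : F 0 0 := .all (.all (.all (imp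
  (.and (.and (le (0 : Fin 1).succ.succ (0 : Fin 2).succ 0)
    (le (0 : Fin 1).succ.succ 0 (0 : Fin 2).succ))
    (.neg (eqv (0 : Fin 2).succ (0 : Fin 1).succ.succ)))
  (lt (0 : Fin 2).succ 0 (0 : Fin 1).succ.succ))))

/-- The relation alternates along the classes. -/
def ax5 : F 0 0 := .all (.all (.all (imp
  (cov 3 0 (0 : Fin 1).succ.succ (0 : Fin 2).succ 0)
  (.and (imp (rel (0 : Fin 1).succ.succ 0) (.neg (rel (0 : Fin 1).succ.succ (0 : Fin 2).succ)))
    (imp (.neg (rel (0 : Fin 1).succ.succ (0 : Fin 2).succ))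
      (rel (0 : Fin 1).succ.succ 0))))))

/-- The number of classes. -/
def ax6 (k : ℕ) : F 0 0 := .all (.ex (.and
  (D k 2 0 (0 : Fin 1).succ (0 : Fin 1).succ 0)
  (.all (le (0 : Fin 1).succ.succ 0 (0 : Fin 2).succ))))

/-- The sentence whose models have size `2 ^ T k`. -/
def sent (k : ℕ) : Sentence τ₀ := .and ax2 (.and ax3 (.and ax4 (.and ax5 (ax6 k))))

variable {V : Type}

theorem LE'.refl (R : V → V → Prop) (x u : V) : LE' R x u u := fun _ _ _ h => h

theorem LE'.trans {R : V → V → Prop} {x u v w : V} (h1 : LE' R x u v) (h2 : LE' R x v w) :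
    LE' R x u w := fun S hS hx hw => h1 S hS hx (h2 S hS hx hw)

theorem LE'.base (R : V → V → Prop) (x u : V) : LE' R x x u := fun _ _ h _ => h

/-- A function to the naturals can be compressed to an initial segment. -/
theorem compress [Fintype V] [Nonempty V] (c : V → ℕ) :
    ∃ (ρ : V → ℕ) (h : ℕ), (∀ u v, ρ u ≤ ρ v ↔ c u ≤ c v) ∧ (∀ i ≤ h, ∃ u, ρ u = i) ∧
      ∀ u, ρ u ≤ h := by
  classical
  let S : Finset ℕ := Finset.univ.image c
  have hS : ∀ u, c u ∈ S := fun u => Finset.mem_image_of_mem _ (Finset.mem_univ u)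
  have hpos : 0 < S.card := Finset.card_pos.mpr ⟨c (Classical.arbitrary V), hS _⟩
  let ι := S.orderIsoOfFin rfl
  refine ⟨fun u => (ι.symm ⟨c u, hS u⟩ : Fin S.card), S.card - 1, ?_, ?_, ?_⟩
  · intro u v
    show (ι.symm ⟨c u, hS u⟩ : ℕ) ≤ (ι.symm ⟨c v, hS v⟩ : ℕ) ↔ _
    rw [← Fin.le_def, ι.symm.le_iff_le]
    exact Iff.rfl
  · intro i hi
    have hi' : i < S.card := by omega
    have hmem : (ι ⟨i, hi'⟩ : ℕ) ∈ S := (ι ⟨i, hi'⟩).2
    obtain ⟨u, _, hu⟩ := Finset.mem_image.mp hmem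
    refine ⟨u, ?_⟩
    have : (⟨c u, hS u⟩ : {y // y ∈ S}) = ι ⟨i, hi'⟩ := Subtype.ext hu
    show ((ι.symm ⟨c u, hS u⟩ : Fin S.card) : ℕ) = i
    rw [this, ι.symm_apply_apply]
  · intro u
    have := (ι.symm ⟨c u, hS u⟩ : Fin S.card).isLt
    show ((ι.symm ⟨c u, hS u⟩ : Fin S.card) : ℕ) ≤ S.card - 1
    omega

theorem exists_ranked [Fintype V] {R : V → V → Prop} {x : V}
    (htot : ∀ u v, LE' R x u v ∨ LE' R x v u) : ∃ ρ h, Ranked R x ρ h := by
  classical
  haveI : Nonempty V := ⟨x⟩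
  let c : V → ℕ := fun u => (Finset.univ.filter (fun w => LE' R x w u)).card
  have hc : ∀ u v, c u ≤ c v ↔ LE' R x u v := by
    intro u v
    constructor
    · intro hle
      by_contra hn
      have hvu : LE' R x v u := (htot u v).resolve_left hn
      have hlt : c v < c u := by
        apply Finset.card_lt_card
        rw [Finset.ssubset_iff_of_subset]
        · refine ⟨u, ?_, ?_⟩
          · simp [LE'.refl]
          · simpa using hn
        · intro w hw
          simp only [Finset.mem_filter, Finset.mem_univ, true_and] at hw ⊢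
          exact hw.trans hvu
      omega
    · intro huv
      apply Finset.card_le_card
      intro w hw
      simp only [Finset.mem_filter, Finset.mem_univ, true_and] at hw ⊢
      exact hw.trans huv
  obtain ⟨ρ, h, h1, h2, h3⟩ := compress c
  exact ⟨ρ, h, ⟨fun u v => by rw [h1, hc], h2, h3⟩⟩

theorem Ranked.base {R : V → V → Prop} {x : V} {ρ : V → ℕ} {h : ℕ} (hr : Ranked R x ρ h) :
    ρ x = 0 := by
  obtain ⟨u, hu⟩ := hr.surj 0 (Nat.zero_le _)
  have := (hr.le_iff x u).mp (LE'.base R x u)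
  omega

section size

variable [Fintype V] {R : V → V → Prop} {ρ : V → V → ℕ} {L : ℕ}

/-- The blocks. -/
def Bk (ρ : V → V → ℕ) (j : ℕ) (x : V) : Set V := {y | ρ x y ≤ j}

theorem isMod_lower (R : V → V → Prop) (x v : V) : IsMod R {u | LE' R x u v} := by
  intro p q z hp hq hz hzp
  have hz' : ¬ LE' R x z v := hz
  unfold LE' at hz'
  push Not at hz'
  obtain ⟨S, hS, hx, hv, hzS⟩ := hz'
  exact hS p q z (hp S hS hx hv) (hq S hS hx hv) hzS hzp

theorem isMod_Bk (hr : ∀ x, Ranked R x (ρ x) L) {j : ℕ} (hj : j ≤ L) (x : V) :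
    IsMod R (Bk ρ j x) := by
  obtain ⟨v, hv⟩ := (hr x).surj j hj
  have : Bk ρ j x = {u | LE' R x u v} := by
    ext u
    show ρ x u ≤ j ↔ LE' R x u v
    rw [(hr x).le_iff, hv]
  rw [this]
  exact isMod_lower R x v

theorem eq_Bk (hr : ∀ x, Ranked R x (ρ x) L) {S : Set V} (hS : IsMod R S) {x : V} (hx : x ∈ S) :
    ∃ j ≤ L, S = Bk ρ j x := by
  obtain ⟨v, hv, hmax⟩ := Set.exists_max_image S (ρ x) (Set.toFinite S) ⟨x, hx⟩
  refine ⟨ρ x v, (hr x).bound v, ?_⟩
  ext u
  constructor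
  · intro hu
    exact hmax u hu
  · intro hu
    exact ((hr x).le_iff u v).mpr hu S hS hx hv

theorem mem_Bk_self (hr : ∀ x, Ranked R x (ρ x) L) (j : ℕ) (x : V) : x ∈ Bk ρ j x := by
  show ρ x x ≤ j
  rw [(hr x).base]
  exact Nat.zero_le _

theorem ncard_super (hr : ∀ x, Ranked R x (ρ x) L) {j : ℕ} (hj : j ≤ L) (x : V) :
    {S | IsMod R S ∧ Bk ρ j x ⊆ S}.ncard = L + 1 - j := by
  have h1 : {S | IsMod R S ∧ Bk ρ j x ⊆ S} = (fun i => Bk ρ i x) '' (Finset.Icc j L : Set ℕ) := by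
    ext S
    constructor
    · rintro ⟨hS, hsub⟩
      obtain ⟨i, hi, rfl⟩ := eq_Bk hr hS (hsub (mem_Bk_self hr j x))
      refine ⟨i, ?_, rfl⟩
      rw [Finset.coe_Icc, Set.mem_Icc]
      refine ⟨?_, hi⟩
      obtain ⟨u, hu⟩ := (hr x).surj j hj
      have : ρ x u ≤ i := hsub (show ρ x u ≤ j from hu.le)
      omega
    · rintro ⟨i, hi, rfl⟩
      rw [Finset.coe_Icc, Set.mem_Icc] at hi
      refine ⟨isMod_Bk hr hi.2 x, ?_⟩
      intro u hu
      exact le_trans (show ρ x u ≤ j from hu) hi.1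
  rw [h1, Set.ncard_image_of_injOn, Set.ncard_coe_finset, Nat.card_Icc]
  intro i hi i' hi' hii
  rw [Finset.coe_Icc, Set.mem_Icc] at hi hi'
  have hii' : Bk ρ i x = Bk ρ i' x := hii
  obtain ⟨u, hu⟩ := (hr x).surj i hi.2
  obtain ⟨u', hu'⟩ := (hr x).surj i' hi'.2
  have e1 : u ∈ Bk ρ i' x := by rw [← hii']; exact hu.le
  have e2 : u' ∈ Bk ρ i x := by rw [hii']; exact hu'.le
  have e1' : ρ x u ≤ i' := e1
  have e2' : ρ x u' ≤ i := e2
  omega

theorem Bk_height (hr : ∀ x, Ranked R x (ρ x) L) {j j' : ℕ} (hj : j ≤ L) (hj' : j' ≤ L) {x y : V}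
    (h : Bk ρ j x = Bk ρ j' y) : j = j' := by
  have h1 := ncard_super hr hj x
  have h2 := ncard_super hr hj' y
  rw [h] at h1
  omega

theorem Bk_eq_of_mem (hr : ∀ x, Ranked R x (ρ x) L) {j : ℕ} (hj : j ≤ L) {x y : V}
    (h : y ∈ Bk ρ j x) : Bk ρ j y = Bk ρ j x := by
  obtain ⟨j', hj', he⟩ := eq_Bk hr (isMod_Bk hr hj x) h
  have := Bk_height hr hj hj' he
  rw [he, this]

theorem ncard_Bk (hr : ∀ x, Ranked R x (ρ x) L)
    (hbin : ∀ x y y', ρ x y = ρ x y' → y ≠ x → ρ y y' < ρ y x) :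
    ∀ j ≤ L, ∀ x, (Bk ρ j x).ncard = 2 ^ j := by
  intro j
  induction j with
  | zero =>
    intro _ x
    have : Bk ρ 0 x = {x} := by
      ext u
      constructor
      · intro hu
        have hu' : ρ x u ≤ ρ x x := by
          rw [(hr x).base]; exact hu
        have := ((hr x).le_iff u x).mpr hu' {x} (by
          intro p q z hp hq _ h
          rw [Set.mem_singleton_iff] at hp hq
          rw [hq, ← hp]; exact h) rfl rfl
        exact this
      · intro hu
        rw [Set.mem_singleton_iff] at hu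
        rw [hu]
        exact mem_Bk_self hr 0 x
    rw [this, Set.ncard_singleton, pow_zero]
  | succ j ih =>
    intro hj x
    obtain ⟨y, hy⟩ := (hr x).surj (j + 1) hj
    have hyB : y ∈ Bk ρ (j + 1) x := hy.le
    have e1 : Bk ρ (j + 1) y = Bk ρ (j + 1) x := Bk_eq_of_mem hr hj hyB
    have hyn : y ∉ Bk ρ j x := by
      intro h
      have : ρ x y ≤ j := h
      omega
    have hxn : x ∉ Bk ρ j y := by
      intro h
      have := Bk_eq_of_mem hr (by omega) h
      exact hyn (by rw [this]; exact mem_Bk_self hr j y)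
    have hyx : ρ y x = j + 1 := by
      have h1 : x ∈ Bk ρ (j + 1) y := by rw [e1]; exact mem_Bk_self hr _ x
      have h1' : ρ y x ≤ j + 1 := h1
      have h2 : ¬ ρ y x ≤ j := hxn
      omega
    have hne : y ≠ x := by
      intro h
      rw [h, (hr x).base] at hy
      omega
    have hun : Bk ρ (j + 1) x = Bk ρ j x ∪ Bk ρ j y := by
      ext w
      constructor
      · intro hw
        have hw' : ρ x w ≤ j + 1 := hw
        by_cases h : ρ x w ≤ j
        · exact Or.inl h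
        · right
          have := hbin x y w (by omega) hne
          show ρ y w ≤ j
          omega
      · rintro (h | h)
        · have : ρ x w ≤ j := h
          show ρ x w ≤ j + 1
          omega
        · rw [← e1]
          have : ρ y w ≤ j := h
          show ρ y w ≤ j + 1
          omega
    have hdis : Disjoint (Bk ρ j x) (Bk ρ j y) := by
      rw [Set.disjoint_left]
      intro w hw1 hw2
      have h1 := Bk_eq_of_mem hr (by omega : j ≤ L) hw1
      have h2 := Bk_eq_of_mem hr (by omega : j ≤ L) hw2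
      apply hyn
      rw [← h1, h2]
      exact mem_Bk_self hr j y
    rw [hun, Set.ncard_union_eq hdis, ih (by omega) x, ih (by omega) y, pow_succ]
    omega

theorem card_eq [Nonempty V] (hr : ∀ x, Ranked R x (ρ x) L)
    (hbin : ∀ x y y', ρ x y = ρ x y' → y ≠ x → ρ y y' < ρ y x) : Nat.card V = 2 ^ L := by
  have x : V := Classical.arbitrary V
  have h1 := ncard_Bk hr hbin L le_rfl x
  have h2 : Bk ρ L x = Set.univ := by
    ext u
    constructor
    · intro _; trivial
    · intro _; exact (hr x).bound u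
  rw [h2, Set.ncard_univ] at h1
  exact h1

end size

/-- What the sentence says. -/
theorem models_sent (M : Str τ₀ V) (k : ℕ) :
    Models M (sent k) ↔
      (∀ x, ¬ M.bin 0 x x) ∧
      (∀ x u v, LE' (M.bin 0) x u v ∨ LE' (M.bin 0) x v u) ∧
      (∀ x y y', (LE' (M.bin 0) x y y' ∧ LE' (M.bin 0) x y' y) ∧ ¬ y = x →
        ¬ LE' (M.bin 0) y x y') ∧
      (∀ x y z, (cov 3 0 (0 : Fin 1).succ.succ (0 : Fin 2).succ 0).Sat M
        (Matrix.vecCons z (Matrix.vecCons y (Matrix.vecCons x Fin.elim0))) Fin.elim0 →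
        (M.bin 0 x z → ¬ M.bin 0 x y) ∧ (¬ M.bin 0 x y → M.bin 0 x z)) ∧
      (∀ x, ∃ v, (D k 2 0 (0 : Fin 1).succ (0 : Fin 1).succ 0).Sat M
        (Matrix.vecCons v (Matrix.vecCons x Fin.elim0)) Fin.elim0 ∧
          ∀ w, LE' (M.bin 0) x w v) := by
  unfold Models sent ax2 ax3 ax4 ax5 ax6
  simp only [sat_all, sat_ex, sat_imp, sat_and, sat_or, sat_le, sat_lt, sat_neg, sat_rel, sat_eqv,
    Matrix.cons_val_succ, Matrix.cons_val_zero]

theorem ranked_of_models [Fintype V] {M : Str τ₀ V} {k : ℕ} (hM : Models M (sent k)) :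
    ∃ ρ : V → V → ℕ, ∀ x, Ranked (M.bin 0) x (ρ x) (T k) := by
  rw [models_sent] at hM
  obtain ⟨-, h3, -, -, h6⟩ := hM
  have : ∀ x, ∃ ρ : V → ℕ, Ranked (M.bin 0) x ρ (T k) := by
    intro x
    obtain ⟨ρ, h, hr⟩ := exists_ranked (h3 x)
    obtain ⟨v, hv, hmax⟩ := h6 x
    rw [means_D M k 2 0 _ _ _ _ _ ρ h (by simpa using hr)] at hv
    simp only [Matrix.cons_val_succ, Matrix.cons_val_zero, hr.base] at hv
    have hh : h = T k := by
      obtain ⟨u, hu⟩ := hr.surj h le_rfl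
      have h1 := (hr.le_iff u v).mp (hmax u)
      have h2 := hr.bound v
      omega
    rw [hh] at hr
    exact ⟨ρ, hr⟩
  choose ρ hρ using this
  exact ⟨ρ, hρ⟩

theorem card_of_models [Fintype V] [Nonempty V] {M : Str τ₀ V} {k : ℕ}
    (hM : Models M (sent k)) : Nat.card V = 2 ^ T k := by
  obtain ⟨ρ, hρ⟩ := ranked_of_models hM
  rw [models_sent] at hM
  obtain ⟨-, -, h4, -, -⟩ := hM
  apply card_eq hρ
  intro x y y' h hne
  have := h4 x y y' ⟨⟨((hρ x).le_iff y y').mpr h.le, ((hρ x).le_iff y' y).mpr h.ge⟩, hne⟩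
  rw [(hρ y).le_iff] at this
  omega

end Pool.Agent.Lib.MP_b66a5a_lc
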