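import Mathlib
import Pool.Agent.Lib.MP_b66a5a_lc.Size

set_option autoImplicit false

/-! The binary tree on `Fin h → Bool` and the models that depend on levels only. -/

namespace Pool.Agent.Lib.MP_b66a5a_lc

/-- Points of the tree of height `h`. -/
abbrev Pt (h : ℕ) : Type := Fin h → Bool

variable {h : ℕ}

/-- One more than the largest coordinate at which the points differ; `0` for equal points. -/
def level (x y : Pt h) : ℕ :=
  (Finset.univ.filter (fun i => x i ≠ y i)).sup (fun i => (i : ℕ) + 1)

theorem level_le_iff (x y : Pt h) (j : ℕ) : level x y ≤ j ↔ ∀ i : Fin h, j ≤ i → x i = y i := by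
  unfold level
  rw [Finset.sup_le_iff]
  constructor
  · intro H i hi
    by_contra hc
    have := H i (by simp [hc])
    omega
  · intro H i hi
    simp only [Finset.mem_filter, Finset.mem_univ, true_and] at hi
    by_contra hc
    exact hi (H i (by omega))

theorem level_le (x y : Pt h) : level x y ≤ h := by
  rw [level_le_iff]
  intro i hi
  exact absurd i.isLt (by omega)

theorem level_comm (x y : Pt h) : level x y = level y x := by
  apply le_antisymm
  · rw [level_le_iff]; intro i hi
    exact ((level_le_iff y x _).mp le_rfl i hi).symm
  · rw [level_le_iff]; intro i hi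
    exact ((level_le_iff x y _).mp le_rfl i hi).symm

theorem level_self (x : Pt h) : level x x = 0 := by
  have : level x x ≤ 0 := by rw [level_le_iff]; intro i _; rfl
  omega

theorem eq_of_level {x y : Pt h} (hxy : level x y = 0) : x = y := by
  funext i
  exact (level_le_iff x y 0).mp hxy.le i (Nat.zero_le _)

theorem level_tri {x y z : Pt h} {j : ℕ} (h1 : level x y ≤ j) (h2 : level y z ≤ j) :
    level x z ≤ j := by
  rw [level_le_iff] at *
  intro i hi
  rw [h1 i hi, h2 i hi]

theorem level_pos_spec {x y : Pt h} {l : ℕ} (hl : level x y = l + 1) :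
    ∃ i : Fin h, (i : ℕ) = l ∧ x i ≠ y i := by
  by_contra hc
  push Not at hc
  have : level x y ≤ l := by
    rw [level_le_iff]
    intro i hi
    rcases hi.eq_or_lt with h1 | h1
    · exact hc i h1.symm
    · exact (level_le_iff x y (l + 1)).mp hl.le i h1
  omega

theorem level_bin {x y y' : Pt h} {l : ℕ} (h1 : level x y = l + 1) (h2 : level x y' = l + 1) :
    level y y' ≤ l := by
  rw [level_le_iff]
  intro i hi
  rcases hi.eq_or_lt with h3 | h3
  · obtain ⟨a, ha, ha'⟩ := level_pos_spec h1
    obtain ⟨b, hb, hb'⟩ := level_pos_spec h2
    have e1 : a = i := Fin.ext (by omega)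
    have e2 : b = i := Fin.ext (by omega)
    subst e1
    subst e2
    revert ha' hb'
    cases x b <;> cases y b <;> cases y' b <;> decide
  · have e1 := (level_le_iff x y (l + 1)).mp h1.le i h3
    have e2 := (level_le_iff x y' (l + 1)).mp h2.le i h3
    rw [← e1, e2]

theorem level_surj (x : Pt h) (j : ℕ) (hj : j ≤ h) : ∃ y, level x y = j := by
  rcases j with _ | j
  · exact ⟨x, level_self x⟩
  · refine ⟨Function.update x ⟨j, by omega⟩ (!(x ⟨j, by omega⟩)), ?_⟩
    apply le_antisymm
    · rw [level_le_iff]
      intro i hi
      rw [Function.update_of_ne]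
      intro hc
      rw [hc] at hi
      simp at hi
    · by_contra hc
      have hc' : level x (Function.update x ⟨j, by omega⟩ (!(x ⟨j, by omega⟩))) ≤ j := by omega
      rw [level_le_iff] at hc'
      have := hc' ⟨j, by omega⟩ le_rfl
      simp at this

theorem level_eq_of_lt {x y z : Pt h} (h1 : level x y < level x z) : level y z = level x z := by
  apply le_antisymm
  · exact level_tri (by rw [level_comm]; omega) le_rfl
  · by_contra hc
    push Not at hc
    have : level x z ≤ max (level x y) (level y z) := level_tri (le_max_left _ _) (le_max_right _ _)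
    omega

/-- The relation of the tree: odd level. -/
def R₀ (x y : Pt h) : Prop := Odd (level x y)

/-- Blocks are modules of every relation that depends on levels only. -/
theorem isMod_block {R : Pt h → Pt h → Prop}
    (hR : ∀ x y x' y', level x y = level x' y' → x ≠ y → (R x y → R x' y')) (x : Pt h) (j : ℕ) :
    IsMod R {u | level x u ≤ j} := by
  intro p q z hp hq hz hzp
  have hp' : level x p ≤ j := hp
  have hq' : level x q ≤ j := hq
  have hz' : ¬ level x z ≤ j := hz
  have e1 : level z p = level x z := by
    rw [level_comm]
    exact level_eq_of_lt (by omega)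
  have e2 : level z q = level x z := by
    rw [level_comm]
    exact level_eq_of_lt (by omega)
  refine hR z p z q (by omega) ?_ hzp
  intro h0
  rw [h0] at hz'
  exact hz' hp'

theorem block_of_mod_aux {S : Set (Pt h)} (hS : IsMod (R₀ (h := h)) S) {x z : Pt h} (hx : x ∈ S)
    (hz : z ∈ S) {w : Pt h} (hw : level x w < level x z) : w ∈ S := by
  -- the case of different parity
  have key : ∀ w, level x w < level x z → ¬ (Odd (level x w) ↔ Odd (level x z)) → w ∈ S := by
    intro w hw hpar
    by_contra hwS
    apply hpar
    have e1 : level w x = level x w := level_comm _ _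
    have e2 : level w z = level x z := level_eq_of_lt hw
    rw [← e1, ← e2]
    exact ⟨fun h => hS x z w hx hz hwS h, fun h => hS z x w hz hx hwS h⟩
  by_cases hpar : (Odd (level x w) ↔ Odd (level x z))
  · rcases Nat.eq_zero_or_pos (level x w) with h0 | h0
    · rw [← eq_of_level h0]; exact hx
    · have hlt : level x w + 1 < level x z := by
        by_contra hc
        have : level x z = level x w + 1 := by omega
        rw [this, Nat.odd_add_one] at hpar
        tauto
      obtain ⟨w', hw'⟩ := level_surj x (level x z - 1) (by have := level_le x z; omega)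
      have hpar' : ¬ (Odd (level x w') ↔ Odd (level x z)) := by
        have : level x z = level x w' + 1 := by omega
        rw [this, Nat.odd_add_one]
        tauto
      have hw'S : w' ∈ S := key w' (by omega) hpar'
      by_contra hwS
      apply hpar'
      have e1 : level w w' = level x w' := level_eq_of_lt (by omega)
      have e2 : level w z = level x z := level_eq_of_lt hw
      rw [← e1, ← e2]
      exact ⟨fun h => hS w' z w hw'S hz hwS h, fun h => hS z w' w hz hw'S hwS h⟩
  · exact key w hw hpar

theorem LE_R₀ (x u v : Pt h) : LE' R₀ x u v ↔ level x u ≤ level x v := by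
  constructor
  · intro H
    have hR : ∀ x y x' y' : Pt h, level x y = level x' y' → x ≠ y → (R₀ x y → R₀ x' y') := by
      intro x y x' y' he _ h
      unfold R₀ at *
      rw [← he]
      exact h
    exact H {u | level x u ≤ level x v} (isMod_block hR x _)
      (by show level x x ≤ _; rw [level_self]; exact Nat.zero_le _) (le_refl (level x v))
  · intro H S hS hx hv
    rcases H.lt_or_eq with hlt | heq
    · exact block_of_mod_aux hS hx hv hlt
    · rcases hl : level x v with _ | l
      · rw [← eq_of_level (by omega : level x u = 0)]
        exact hx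
      · have h1 : level v u ≤ l := level_bin hl (by omega)
        exact block_of_mod_aux hS hv hx (by rw [level_comm v x]; omega)

theorem ranked_R₀ (x : Pt h) : Ranked R₀ x (level x) h :=
  ⟨fun u v => LE_R₀ x u v, fun i hi => level_surj x i hi, fun u => level_le x u⟩

/-- The structure of the tree. -/
def M₀ (h : ℕ) : Str τ₀ (Pt h) := ⟨Fin.elim0, fun i => i.elim0, fun _ => R₀⟩

theorem models_M₀ (k : ℕ) : Models (M₀ (T k)) (sent k) := by
  have hr : ∀ x : Pt (T k), Ranked ((M₀ (T k)).bin 0) x (level x) (T k) := fun x => ranked_R₀ x
  rw [models_sent]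
  refine ⟨?_, ?_, ?_, ?_, ?_⟩
  · intro x
    show ¬ Odd (level x x)
    rw [level_self]
    decide
  · intro x u v
    rw [(hr x).le_iff, (hr x).le_iff]
    exact le_total _ _
  · intro x y y' hh
    rw [(hr x).le_iff, (hr x).le_iff] at hh
    rw [(hr y).le_iff]
    obtain ⟨⟨h1, h2⟩, h3⟩ := hh
    rcases hl : level x y with _ | l
    · exact absurd (eq_of_level hl).symm h3
    · have h4 : level y y' ≤ l := level_bin hl (by omega)
      have h5 : level y x = l + 1 := by rw [level_comm]; exact hl
      omega
  · intro x y z hc
    rw [sat_cov (ρ := level x) (h := T k) (by simpa using hr x)] at hc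
    simp only [Matrix.cons_val_succ, Matrix.cons_val_zero] at hc
    show (Odd (level x z) → ¬ Odd (level x y)) ∧ (¬ Odd (level x y) → Odd (level x z))
    rw [hc, Nat.odd_add_one]
    exact ⟨fun h => h, fun h => h⟩
  · intro x
    obtain ⟨v, hv⟩ := level_surj x (T k) le_rfl
    refine ⟨v, ?_, ?_⟩
    · rw [means_D (M₀ (T k)) k 2 0 _ _ _ _ _ (level x) (T k) (by simpa using hr x)]
      simp only [Matrix.cons_val_succ, Matrix.cons_val_zero, level_self]
      omega
    · intro w
      rw [(hr x).le_iff, hv]
      exact level_le x w

/-- A strictly increasing function from `{0, ..., h}` to itself is the identity. -/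
theorem strict_id (g : ℕ → ℕ) (h : ℕ) (hg : ∀ i j, i < j → j ≤ h → g i < g j) (hb : g h ≤ h) :
    ∀ i ≤ h, g i = i := by
  have h1 : ∀ i ≤ h, i ≤ g i := by
    intro i
    induction i with
    | zero => intro _; exact Nat.zero_le _
    | succ i ih =>
      intro hi
      have := hg i (i + 1) (by omega) hi
      have := ih (by omega)
      omega
  have h2 : ∀ d ≤ h, g (h - d) ≤ h - d := by
    intro d
    induction d with
    | zero => intro _; simpa using hb
    | succ d ih =>
      intro hd
      have e1 := hg (h - (d + 1)) (h - d) (by omega) (by omega)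
      have e2 := ih (by omega)
      omega
  intro i hi
  have e1 := h1 i hi
  have e2 := h2 (h - i) (by omega)
  rw [show h - (h - i) = i by omega] at e2
  omega

/-- The only model on the tree that depends on levels only is `M₀`. -/
theorem unique_model (k : ℕ) (M : Str τ₀ (Pt (T k))) (hM : Models M (sent k))
    (hR : ∀ x y x' y', level x y = level x' y' → x ≠ y → (M.bin 0 x y → M.bin 0 x' y')) :
    M = M₀ (T k) := by
  obtain ⟨ρ, hρ⟩ := ranked_of_models hM
  rw [models_sent] at hM
  obtain ⟨h2, -, -, h5, -⟩ := hM
  have hle : ∀ x u v, LE' (M.bin 0) x u v → level x u ≤ level x v := by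
    intro x u v H
    exact H {u | level x u ≤ level x v} (isMod_block hR x _)
      (by show level x x ≤ _; rw [level_self]; exact Nat.zero_le _) (le_refl (level x v))
  have hlt : ∀ x u v, level x u < level x v → ρ x u < ρ x v := by
    intro x u v H
    by_contra hc
    push Not at hc
    have := hle x v u (((hρ x).le_iff v u).mpr hc)
    omega
  have hlev : ∀ x u, ρ x u = level x u := by
    intro x u
    have hz : ∀ i, ∃ z, (i ≤ T k → level x z = i) ∧ (i = level x u → z = u) := by
      intro i
      by_cases hi : i = level x u
      · exact ⟨u, fun _ => hi.symm, fun _ => rfl⟩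
      · by_cases hi2 : i ≤ T k
        · obtain ⟨z, hz⟩ := level_surj x i hi2
          exact ⟨z, fun _ => hz, fun h => absurd h hi⟩
        · exact ⟨u, fun h => absurd h hi2, fun _ => rfl⟩
    choose z hz1 hz2 using hz
    have := strict_id (fun i => ρ x (z i)) (T k) (by
      intro i j hij hj
      apply hlt
      rw [hz1 i (by omega), hz1 j hj]
      exact hij) ((hρ x).bound _) (level x u) (level_le x u)
    have e : z (level x u) = u := hz2 _ rfl
    show ρ x u = level x u
    rw [← e]
    rw [e] at this ⊢
    exact (by simpa [e] using this)
  have hodd : ∀ (l : ℕ) (x y : Pt (T k)), level x y = l → (M.bin 0 x y ↔ Odd l) := by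
    intro l
    induction l with
    | zero =>
      intro x y hxy
      rw [eq_of_level hxy]
      constructor
      · intro h; exact absurd h (h2 y)
      · intro h; exact absurd h (by decide)
    | succ l ih =>
      intro x y hxy
      obtain ⟨w, hw⟩ := level_surj x l (by have := level_le x y; omega)
      have h6 := h5 x w y (by
        rw [sat_cov (ρ := ρ x) (h := T k) (by simpa using hρ x)]
        simp only [Matrix.cons_val_succ, Matrix.cons_val_zero]
        rw [hlev, hlev]
        omega)
      rw [Nat.odd_add_one, ← ih x w hw]
      exact ⟨h6.1, h6.2⟩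
  ext1
  · funext i; exact i.elim0
  · funext i; exact i.elim0
  · funext i x y
    have hi : i = 0 := Subsingleton.elim _ _
    subst hi
    exact propext (hodd _ x y rfl)

end Pool.Agent.Lib.MP_b66a5a_lc
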