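import Mathlib
import Pool.Agent.Lib.MP_b66a5a_lc.Tree

set_option autoImplicit false

/-! The number of models on `2 ^ T k` labelled points is odd. -/

namespace Pool.Agent.Lib.MP_b66a5a_lc

/-- Transport of a structure along a bijection. -/
def Str.map {τ : Voc} {V W : Type} (σ : V ≃ W) (M : Str τ V) : Str τ W :=
  ⟨fun i => σ (M.con i), fun i a => M.un i (σ.symm a),
    fun i a b => M.bin i (σ.symm a) (σ.symm b)⟩

theorem val_map {τ : Voc} {V W : Type} (σ : V ≃ W) (M : Str τ V) {n : ℕ} (t : Term τ n)
    (e : Fin n → V) : t.val (M.map σ) (fun i => σ (e i)) = σ (t.val M e) := by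
  cases t with
  | var i => rfl
  | con i => rfl

theorem cons_map {V W : Type} (σ : V ≃ W) {n : ℕ} (a : V) (e : Fin n → V) :
    (Matrix.vecCons (σ a) (fun i => σ (e i)) : Fin (n + 1) → W)
      = fun i => σ ((Matrix.vecCons a e : Fin (n + 1) → V) i) := by
  funext i
  refine Fin.cases ?_ (fun i => ?_) i
  · rfl
  · rfl

theorem cons_set_map {V W : Type} (σ : V ≃ W) {m : ℕ} (A : Set V) (E : Fin m → Set V) :
    (Matrix.vecCons (σ.symm ⁻¹' A) (fun i => σ.symm ⁻¹' (E i)) : Fin (m + 1) → Set W)
      = fun i => σ.symm ⁻¹' ((Matrix.vecCons A E : Fin (m + 1) → Set V) i) := by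
  funext i
  refine Fin.cases ?_ (fun i => ?_) i
  · rfl
  · rfl

theorem sat_map {τ : Voc} {V W : Type} (σ : V ≃ W) (M : Str τ V) {n m : ℕ} (φ : Formula τ n m)
    (e : Fin n → V) (E : Fin m → Set V) :
    φ.Sat (M.map σ) (fun i => σ (e i)) (fun i => σ.symm ⁻¹' (E i)) ↔ φ.Sat M e E := by
  induction φ with
  | eq s t =>
    show s.val _ _ = t.val _ _ ↔ s.val _ _ = t.val _ _
    rw [val_map, val_map, σ.injective.eq_iff]
  | un i t =>
    show M.un i (σ.symm (t.val _ _)) ↔ M.un i (t.val _ _)
    rw [val_map, σ.symm_apply_apply]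
  | bin i s t =>
    show M.bin i (σ.symm (s.val _ _)) (σ.symm (t.val _ _)) ↔ M.bin i (s.val _ _) (t.val _ _)
    rw [val_map, val_map, σ.symm_apply_apply, σ.symm_apply_apply]
  | mem t X =>
    show σ.symm (t.val _ _) ∈ E X ↔ t.val _ _ ∈ E X
    rw [val_map, σ.symm_apply_apply]
  | neg φ ih => exact not_congr (ih e E)
  | and φ ψ ih1 ih2 => exact and_congr (ih1 e E) (ih2 e E)
  | or φ ψ ih1 ih2 => exact or_congr (ih1 e E) (ih2 e E)
  | ex φ ih =>
    constructor
    · rintro ⟨b, hb⟩
      obtain ⟨a, rfl⟩ := σ.surjective b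
      rw [cons_map] at hb
      exact ⟨a, (ih _ _).mp hb⟩
    · rintro ⟨a, ha⟩
      refine ⟨σ a, ?_⟩
      rw [cons_map]
      exact (ih _ _).mpr ha
  | all φ ih =>
    constructor
    · intro H a
      have := H (σ a)
      rw [cons_map] at this
      exact (ih _ _).mp this
    · intro H b
      obtain ⟨a, rfl⟩ := σ.surjective b
      rw [cons_map]
      exact (ih _ _).mpr (H a)
  | exSet φ ih =>
    constructor
    · rintro ⟨B, hB⟩
      refine ⟨σ ⁻¹' B, ?_⟩
      rw [← ih, ← cons_set_map, ← Set.preimage_comp]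
      simpa using hB
    · rintro ⟨A, hA⟩
      refine ⟨σ.symm ⁻¹' A, ?_⟩
      rw [cons_set_map]
      exact (ih _ _).mpr hA
  | allSet φ ih =>
    constructor
    · intro H A
      have := H (σ.symm ⁻¹' A)
      rw [cons_set_map] at this
      exact (ih _ _).mp this
    · intro H B
      have := H (σ ⁻¹' B)
      rw [← ih, ← cons_set_map, ← Set.preimage_comp] at this
      simpa using this
  | count k q hq φ ih =>
    have hcard : Nat.card {b : W // φ.Sat (M.map σ)
          (Matrix.vecCons b (fun i => σ (e i))) (fun i => σ.symm ⁻¹' (E i))}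
        = Nat.card {a : V // φ.Sat M (Matrix.vecCons a e) E} := by
      apply Nat.card_congr
      refine (Equiv.subtypeEquiv σ ?_).symm
      intro a
      rw [cons_map]
      exact (ih _ _).symm
    show Nat.card _ ≡ k [MOD q] ↔ Nat.card _ ≡ k [MOD q]
    rw [hcard]

theorem models_map {τ : Voc} {V W : Type} (σ : V ≃ W) (M : Str τ V) (φ : Sentence τ) :
    Models (M.map σ) φ ↔ Models M φ := by
  have := sat_map σ M φ Fin.elim0 Fin.elim0
  unfold Models
  rw [← this]
  have e1 : (fun i : Fin 0 => σ ((Fin.elim0 : Fin 0 → V) i)) = Fin.elim0 := by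
    funext i; exact i.elim0
  have e2 : (fun i : Fin 0 => σ.symm ⁻¹' ((Fin.elim0 : Fin 0 → Set V) i)) = Fin.elim0 := by
    funext i; exact i.elim0
  rw [e1, e2]

theorem map_map {τ : Voc} {U V W : Type} (σ : U ≃ V) (ρ : V ≃ W) (M : Str τ U) :
    (M.map σ).map ρ = M.map (σ.trans ρ) := rfl

theorem map_refl {τ : Voc} {V : Type} (M : Str τ V) : M.map (Equiv.refl V) = M := rfl

/-- The number of models depends only on the number of points. -/
theorem card_models_congr {τ : Voc} {V W : Type} (σ : V ≃ W) (φ : Sentence τ) :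
    Nat.card {M : Str τ V // Models M φ} = Nat.card {M : Str τ W // Models M φ} := by
  apply Nat.card_congr
  refine ⟨fun M => ⟨M.1.map σ, (models_map σ M.1 φ).mpr M.2⟩,
    fun M => ⟨M.1.map σ.symm, (models_map σ.symm M.1 φ).mpr M.2⟩, ?_, ?_⟩
  · intro M
    apply Subtype.ext
    show (M.1.map σ).map σ.symm = M.1
    rw [map_map, Equiv.self_trans_symm, map_refl]
  · intro M
    apply Subtype.ext
    show (M.1.map σ.symm).map σ = M.1
    rw [map_map, Equiv.symm_trans_self, map_refl]

instance finite_str {τ : Voc} {V : Type} [Finite V] : Finite (Str τ V) := by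
  apply Finite.of_injective
    (fun M : Str τ V => ((M.con, M.un, M.bin) :
      (Fin τ.consts → V) × (Fin τ.unary → V → Prop) × (Fin τ.binary → V → V → Prop)))
  intro M N hMN
  simp only [Prod.mk.injEq] at hMN
  exact Str.ext hMN.1 hMN.2.1 hMN.2.2

variable {h : ℕ}

/-- The automorphism group of the tree. -/
def P (h : ℕ) : Subgroup (Equiv.Perm (Pt h)) where
  carrier := {σ | ∀ x y, level (σ x) (σ y) = level x y}
  mul_mem' := by
    intro σ ρ hσ hρ x y
    show level (σ (ρ x)) (σ (ρ y)) = _
    rw [hσ, hρ]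
  one_mem' := fun x y => rfl
  inv_mem' := by
    intro σ hσ x y
    have := hσ (σ⁻¹ x) (σ⁻¹ y)
    have e : ∀ z, σ (σ⁻¹ z) = z := fun z => σ.apply_symm_apply z
    rw [e, e] at this
    exact this.symm

theorem pow_level {σ : Equiv.Perm (Pt h)} (hσ : σ ∈ P h) :
    ∀ j ≤ h, ∀ x, level ((σ ^ (2 ^ j)) x) x ≤ h - j := by
  intro j
  induction j with
  | zero => intro _ x; exact level_le _ _
  | succ j ih =>
    intro hj x
    have hτ : σ ^ (2 ^ j) ∈ P h := Subgroup.pow_mem _ hσ _
    have e : σ ^ (2 ^ (j + 1)) = σ ^ (2 ^ j) * σ ^ (2 ^ j) := by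
      rw [← pow_add]; congr 1; rw [pow_succ]; omega
    rw [e, Equiv.Perm.mul_apply]
    generalize hτ' : σ ^ (2 ^ j) = τ at *
    have h1 : level (τ (τ x)) (τ x) = level (τ x) x := hτ _ _
    have h2 := ih (by omega) x
    obtain ⟨l, hl⟩ : ∃ l, h - j = l + 1 := ⟨h - j - 1, by omega⟩
    rw [show h - (j + 1) = l by omega]
    by_cases h3 : level (τ x) x ≤ l
    · exact level_tri (by rw [h1]; exact h3) h3
    · have h4 : level (τ x) x = l + 1 := by omega
      apply level_bin (x := τ x)
      · rw [level_comm, h1, h4]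
      · exact h4

theorem isPGroup_P (h : ℕ) : IsPGroup 2 (P h) := by
  rintro ⟨σ, hσ⟩
  refine ⟨h, ?_⟩
  apply Subtype.ext
  show σ ^ (2 ^ h) = 1
  ext1 x
  have := pow_level hσ h le_rfl x
  show (σ ^ (2 ^ h)) x = x
  exact eq_of_level (by omega)

/-- Coordinatewise exclusive or. -/
def xo (z a : Pt h) : Pt h := fun i => xor (z i) (a i)

theorem level_xo {z w a b : Pt h} {l j : ℕ} (hab : ∀ i : Fin h, l ≤ i → a i = b i) (hj : l ≤ j) :
    level (xo z a) (xo w b) ≤ j ↔ level z w ≤ j := by
  rw [level_le_iff, level_le_iff]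
  have : ∀ p q r : Bool, (xor p r = xor q r) ↔ p = q := by decide
  constructor
  · intro H i hi
    have h1 : xor (z i) (a i) = xor (w i) (b i) := H i hi
    rw [← hab i (by omega)] at h1
    exact (this _ _ _).mp h1
  · intro H i hi
    show xor (z i) (a i) = xor (w i) (b i)
    rw [← hab i (by omega)]
    exact (this _ _ _).mpr (H i hi)

theorem level_xo_eq {z w a b : Pt h} {l : ℕ} (hab : ∀ i : Fin h, l ≤ i → a i = b i)
    (hzw : l < level z w) : level (xo z a) (xo w b) = level z w := by
  apply le_antisymm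
  · exact (level_xo hab hzw.le).mpr le_rfl
  · by_contra hc
    push Not at hc
    have h1 : level (xo z a) (xo w b) ≤ level z w - 1 := by omega
    have h2 := (level_xo hab (by omega)).mp h1
    omega

theorem level_xo_self (z w a : Pt h) : level (xo z a) (xo w a) = level z w := by
  apply le_antisymm
  · exact (level_xo (l := 0) (fun _ _ => rfl) (Nat.zero_le _)).mpr le_rfl
  · exact (level_xo (l := 0) (fun _ _ => rfl) (Nat.zero_le _)).mp le_rfl

theorem pair_trans {x y x' y' : Pt h} (hl : level x y = level x' y') (hxy : x ≠ y) :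
    ∃ σ ∈ P h, σ x = x' ∧ σ y = y' := by
  obtain ⟨l, hl1⟩ : ∃ l, level x y = l + 1 := by
    refine ⟨level x y - 1, ?_⟩
    have : level x y ≠ 0 := fun h0 => hxy (eq_of_level h0)
    omega
  have hl2 : level x' y' = l + 1 := by omega
  let a := xo x x'
  let b := xo y y'
  have hab : ∀ i : Fin h, l ≤ i → a i = b i := by
    intro i hi
    show xor (x i) (x' i) = xor (y i) (y' i)
    rcases hi.eq_or_lt with h1 | h1
    · obtain ⟨p, hp, hp'⟩ := level_pos_spec hl1
      obtain ⟨q, hq, hq'⟩ := level_pos_spec hl2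
      have e1 : p = i := Fin.ext (by omega)
      have e2 : q = i := Fin.ext (by omega)
      subst e1
      subst e2
      revert hp' hq'
      cases x q <;> cases y q <;> cases x' q <;> cases y' q <;> decide
    · rw [(level_le_iff x y (l + 1)).mp hl1.le i h1, (level_le_iff x' y' (l + 1)).mp hl2.le i h1]
  let f : Pt h → Pt h := fun z => if level x z ≤ l then xo z a else xo z b
  have hf : ∀ z w, level (f z) (f w) = level z w := by
    intro z w
    by_cases hz : level x z ≤ l <;> by_cases hw : level x w ≤ l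
    · simp only [f, hz, hw, if_true]
      exact level_xo_self z w a
    · simp only [f, hz, hw, if_true, if_false]
      apply level_xo_eq hab
      rw [level_eq_of_lt (x := x) (by omega)]
      omega
    · simp only [f, hz, hw, if_true, if_false]
      rw [level_comm, level_comm z w]
      apply level_xo_eq hab
      rw [level_eq_of_lt (x := x) (by omega)]
      omega
    · simp only [f, hz, hw, if_false]
      exact level_xo_self z w b
  have hinj : Function.Injective f := by
    intro z w hzw
    apply eq_of_level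
    rw [← hf, hzw, level_self]
  refine ⟨Equiv.ofBijective f (Finite.injective_iff_bijective.mp hinj), hf, ?_, ?_⟩
  · show f x = x'
    have : level x x ≤ l := by rw [level_self]; exact Nat.zero_le _
    simp only [f, this, if_true]
    funext i
    show xor (x i) (xor (x i) (x' i)) = x' i
    cases x i <;> cases x' i <;> rfl
  · show f y = y'
    have : ¬ level x y ≤ l := by omega
    simp only [f, this, if_false]
    funext i
    show xor (y i) (xor (y i) (y' i)) = y' i
    cases y i <;> cases y' i <;> rfl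

/-- The group acts on the models. -/
instance act (k h : ℕ) : MulAction (P h) {M : Str τ₀ (Pt h) // Models M (sent k)} where
  smul σ M := ⟨M.1.map σ.1, (models_map σ.1 M.1 _).mpr M.2⟩
  one_smul := fun M => rfl
  mul_smul := fun σ ρ M => rfl

theorem odd_count (k : ℕ) : Nat.card {M : Str τ₀ (Pt (T k)) // Models M (sent k)} ≡ 1 [MOD 2] := by
  have h1 := (isPGroup_P (T k)).card_modEq_card_fixedPoints
    {M : Str τ₀ (Pt (T k)) // Models M (sent k)}
  refine h1.trans ?_
  have h2 : Nat.card (MulAction.fixedPoints (P (T k))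
      {M : Str τ₀ (Pt (T k)) // Models M (sent k)}) = 1 := by
    rw [Nat.card_eq_one_iff_unique]
    constructor
    · constructor
      intro M N
      have key : ∀ M : MulAction.fixedPoints (P (T k))
          {M : Str τ₀ (Pt (T k)) // Models M (sent k)}, M.1.1 = M₀ (T k) := by
        intro M
        apply unique_model k M.1.1 M.1.2
        intro x y x' y' hl hxy hR
        obtain ⟨σ, hσ, h1, h2⟩ := pair_trans hl hxy
        have h3 := M.2 ⟨σ, hσ⟩
        have h4 : M.1.1.map σ = M.1.1 := congrArg Subtype.val h3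
        rw [← h4]
        show M.1.1.bin 0 (σ.symm x') (σ.symm y')
        rw [← h1, ← h2, σ.symm_apply_apply, σ.symm_apply_apply]
        exact hR
      apply Subtype.ext
      apply Subtype.ext
      rw [key M, key N]
    · refine ⟨⟨⟨M₀ (T k), models_M₀ k⟩, ?_⟩⟩
      rintro ⟨σ, hσ⟩
      apply Subtype.ext
      show (M₀ (T k)).map σ = M₀ (T k)
      ext1
      · funext i; exact i.elim0
      · funext i; exact i.elim0
      · funext i x y
        show Odd (level (σ.symm x) (σ.symm y)) = Odd (level x y)
        have : level (σ.symm x) (σ.symm y) = level x y := by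
          rw [← hσ (σ.symm x) (σ.symm y), σ.apply_symm_apply, σ.apply_symm_apply]
        rw [this]
  rw [h2]

theorem countSeq_odd (k : ℕ) : countSeq (sent k) (2 ^ T k) ≡ 1 [MOD 2] := by
  have e : Pt (T k) ≃ Fin (2 ^ T k) := Fintype.equivFinOfCardEq (by simp)
  unfold countSeq
  rw [← card_models_congr e]
  exact odd_count k

theorem countSeq_zero (k n : ℕ) (hn : 0 < n) (hne : n ≠ 2 ^ T k) : countSeq (sent k) n = 0 := by
  unfold countSeq
  rw [Nat.card_eq_zero]
  left
  constructor
  rintro ⟨M, hM⟩
  haveI : Nonempty (Fin n) := ⟨⟨0, hn⟩⟩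
  have := card_of_models hM
  rw [Nat.card_eq_fintype_card, Fintype.card_fin] at this
  exact hne this

end Pool.Agent.Lib.MP_b66a5a_lc
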