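import Mathlib
import Pool.Agent.Lib.MP_b66a5a_lc.Parity
import Pool.Agent.Lib.MP_b66a5a_lc.ElemBound

set_option autoImplicit false

/-! The length of the sentences and the final theorem. -/

namespace Pool.Agent.Lib.MP_b66a5a_lc

/-- The number of nodes of a formula. -/
def Formula.size {τ : Voc} : {n m : ℕ} → Formula τ n m → ℕ
  | _, _, .eq _ _ => 1
  | _, _, .un _ _ => 1
  | _, _, .bin _ _ _ => 1
  | _, _, .mem _ _ => 1
  | _, _, .neg φ => φ.size + 1
  | _, _, .and φ ψ => φ.size + ψ.size + 1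
  | _, _, .or φ ψ => φ.size + ψ.size + 1
  | _, _, .ex φ => φ.size + 1
  | _, _, .all φ => φ.size + 1
  | _, _, .exSet φ => φ.size + 1
  | _, _, .allSet φ => φ.size + 1
  | _, _, .count k q _ φ => φ.size + k + q + 1

/-- The bound for the length per node. -/
def Kb (τ : Voc) (n m s : ℕ) : ℕ := 3 * (n + m + s + τ.consts + τ.unary + τ.binary) + 1

theorem Term.length_le {τ : Voc} {n : ℕ} (t : Term τ n) : t.length ≤ n + τ.consts := by
  cases t with
  | var i =>
    have := i.isLt
    show (i : ℕ) + 1 ≤ _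
    omega
  | con i =>
    have := i.isLt
    show (i : ℕ) + 1 ≤ _
    omega

theorem length_le_size {τ : Voc} {n m : ℕ} (φ : Formula τ n m) :
    φ.length ≤ φ.size * Kb τ n m φ.size := by
  induction φ with
  | eq s t =>
    have h1 := s.length_le
    have h2 := t.length_le
    simp only [Formula.length, Formula.size, Kb]
    omega
  | un i t =>
    have h1 := t.length_le
    have := i.isLt
    simp only [Formula.length, Formula.size, Kb]
    omega
  | bin i s t =>
    have h1 := s.length_le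
    have h2 := t.length_le
    have := i.isLt
    simp only [Formula.length, Formula.size, Kb]
    omega
  | mem t X =>
    have h1 := t.length_le
    have := X.isLt
    simp only [Formula.length, Formula.size, Kb]
    omega
  | neg φ ih =>
    simp only [Formula.length, Formula.size, Kb] at *
    nlinarith
  | and φ ψ ih1 ih2 =>
    simp only [Formula.length, Formula.size, Kb] at *
    nlinarith
  | or φ ψ ih1 ih2 =>
    simp only [Formula.length, Formula.size, Kb] at *
    nlinarith
  | ex φ ih =>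
    simp only [Formula.length, Formula.size, Kb] at *
    nlinarith
  | all φ ih =>
    simp only [Formula.length, Formula.size, Kb] at *
    nlinarith
  | exSet φ ih =>
    simp only [Formula.length, Formula.size, Kb] at *
    nlinarith
  | allSet φ ih =>
    simp only [Formula.length, Formula.size, Kb] at *
    nlinarith
  | count k q hq φ ih =>
    simp only [Formula.length, Formula.size, Kb] at *
    nlinarith

theorem size_next {d : Rel3} {s : ℕ} (hd : ∀ n m (x u v : Fin n), (d n m x u v).size = s)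
    (n m : ℕ) (x u v : Fin n) : (next d n m x u v).size = 11 * s + 744 := by
  simp only [next, satd, blk, inc, lst, le, lt, mdl, imp, inn, rel, Formula.size, hd]
  omega

theorem size_cov (n m : ℕ) (x u v : Fin n) : (cov n m x u v).size = 76 := by
  simp only [cov, le, lt, mdl, imp, inn, rel, Formula.size]

theorem size_D (k : ℕ) : ∃ s, s + 744 ≤ 820 * 12 ^ k ∧
    ∀ n m (x u v : Fin n), (D k n m x u v).size = s := by
  induction k with
  | zero => exact ⟨76, by norm_num, fun n m x u v => size_cov n m x u v⟩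
  | succ k ih =>
    obtain ⟨s, hs, hd⟩ := ih
    refine ⟨11 * s + 744, ?_, fun n m x u v => size_next hd n m x u v⟩
    rw [pow_succ]
    have h1 : 1 ≤ 12 ^ k := Nat.one_le_pow _ _ (by norm_num)
    omega

theorem size_sent (k : ℕ) : (sent k).size ≤ 820 * 12 ^ k := by
  obtain ⟨s, hs, hd⟩ := size_D k
  have : (sent k).size = s + 255 := by
    simp only [sent, ax2, ax3, ax4, ax5, ax6, cov, le, lt, mdl, imp, inn, rel, eqv, Formula.size,
      hd]
    omega
  omega

theorem length_sent (k : ℕ) : (sent k).length ≤ 2 ^ (8 * k + 24) := by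
  have h1 := length_le_size (sent k)
  have h2 := size_sent k
  have h3 : 1 ≤ 12 ^ k := Nat.one_le_pow _ _ (by norm_num)
  have h4 : Kb τ₀ 0 0 (sent k).size ≤ 3 * (820 * 12 ^ k + 1) + 1 := by
    unfold Kb
    show 3 * (0 + 0 + (sent k).size + 0 + 0 + 1) + 1 ≤ _
    omega
  have h5 : Kb τ₀ 0 0 (sent k).size ≤ 4 * (820 * 12 ^ k) := by omega
  calc (sent k).length ≤ (820 * 12 ^ k) * (4 * (820 * 12 ^ k)) := h1.trans (Nat.mul_le_mul h2 h5)
    _ = (820 * 4 * 820) * (12 ^ k * 12 ^ k) := by ring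
    _ ≤ 2 ^ 24 * (16 ^ k * 16 ^ k) := by
        apply Nat.mul_le_mul (by norm_num)
        apply Nat.mul_le_mul <;> exact Nat.pow_le_pow_left (by norm_num) k
    _ = 2 ^ (8 * k + 24) := by
        rw [show (16 : ℕ) = 2 ^ 4 by norm_num, ← pow_mul, ← pow_add, ← pow_add]
        congr 1
        omega

theorem two_pow_T_le (k : ℕ) : 2 ^ T k ≤ T (k + 1) := by
  show 2 ^ T k ≤ T k * 2 ^ T k
  exact Nat.le_mul_of_pos_left _ (T_pos k)

theorem succ_le_T (k : ℕ) : k + 1 ≤ T k := by
  induction k with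
  | zero => exact le_rfl
  | succ k ih =>
    have h1 := two_pow_T_le k
    have h2 : T k < 2 ^ T k := Nat.lt_two_pow_self
    omega

theorem T_big (j : ℕ) : 2 ^ (2 ^ (j + 1)) ≤ T (j + 2) := by
  have h1 := succ_le_T j
  have h2 := two_pow_T_le j
  have h3 := two_pow_T_le (j + 1)
  have h4 : 2 ^ (j + 1) ≤ T (j + 1) := (Nat.pow_le_pow_right (by norm_num) h1).trans h2
  exact (Nat.pow_le_pow_right (by norm_num) h4).trans h3

theorem tw_T (c i : ℕ) (hi : 1 ≤ i) : tw c (T i) ≤ T (i + c + 1) := by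
  induction c with
  | zero =>
    have h1 := succ_le_T i
    have h2 : T i + 2 ≤ 2 ^ T i := add_two_le_two_pow (by omega)
    rw [tw_zero]
    exact h2.trans (two_pow_T_le i)
  | succ c ih =>
    rw [tw_succ]
    refine (Nat.pow_le_pow_right (by norm_num) ih).trans ?_
    exact two_pow_T_le (i + c + 1)

theorem numeric (c : ℕ) : ∃ k, 2 * tw c (max (sent k).length 2) + 1 < 2 ^ T k := by
  let j := c + 40
  refine ⟨j + 2 + c + 2, ?_⟩
  have h1 := length_sent (j + 2 + c + 2)
  have h2 : 8 * (j + 2 + c + 2) + 24 ≤ 2 ^ (j + 1) := by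
    have e : 2 ^ (j + 1) = 2 ^ 41 * 2 ^ c := by
      rw [← pow_add]
      congr 1
      show c + 40 + 1 = 41 + c
      omega
    have e2 : c < 2 ^ c := Nat.lt_two_pow_self
    rw [e]
    show 8 * (c + 40 + 2 + c + 2) + 24 ≤ 2 ^ 41 * 2 ^ c
    have e3 : (2 : ℕ) ^ 41 = 2199023255552 := by norm_num
    rw [e3]
    omega
  have h3 : (sent (j + 2 + c + 2)).length ≤ T (j + 2) :=
    h1.trans ((Nat.pow_le_pow_right (by norm_num) h2).trans (T_big j))
  have h4 : max (sent (j + 2 + c + 2)).length 2 ≤ T (j + 2) := by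
    have := succ_le_T (j + 2)
    exact max_le h3 (by omega)
  have h5 : tw c (max (sent (j + 2 + c + 2)).length 2) ≤ T (j + 2 + c + 1) :=
    (tw_mono_right c h4).trans (tw_T c (j + 2) (by omega))
  have h6 := two_pow_T_le (j + 2 + c + 1)
  have h7 := succ_le_T (j + 2 + c + 1)
  have h8 : T (j + 2 + c + 1) + 2 ≤ 2 ^ T (j + 2 + c + 1) := add_two_le_two_pow (by omega)
  have h9 : 2 ^ (T (j + 2 + c + 1) + 2) ≤ 2 ^ T (j + 2 + c + 2) :=
    Nat.pow_le_pow_right (by norm_num) (h8.trans h6)
  have h10 : T (j + 2 + c + 1) < 2 ^ T (j + 2 + c + 1) := Nat.lt_two_pow_self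
  rw [pow_add] at h9
  omega

theorem main : ¬ ∃ f : ℕ → ℕ, Elementary f ∧
    ∀ (τ : Voc) (φ : Sentence τ) (m : ℕ), 0 < m →
      ∃ r p : ℕ, 0 < r ∧ 0 < p ∧ r ≤ f (max φ.length m) ∧ p ≤ f (max φ.length m) ∧
        RecurrenceMod (countSeq φ) m r p := by
  rintro ⟨f, hf, H⟩
  obtain ⟨c, hc⟩ := elementary_bound hf
  obtain ⟨k, hk⟩ := numeric c
  obtain ⟨r, p, hr, hp, hr2, hp2, α, hα⟩ := H τ₀ (sent k) 2 (by norm_num)
  have h1 := hc (max (sent k).length 2)
  obtain ⟨n, hn⟩ : ∃ n, n + p + 1 = 2 ^ T k := ⟨2 ^ T k - (p + 1), by omega⟩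
  have h2 := hα n (by omega)
  rw [hn] at h2
  have h3 : ∑ i ∈ Finset.range (p + 1), α i * (countSeq (sent k) (n + i) : ℤ) = 0 := by
    apply Finset.sum_eq_zero
    intro i hi
    have hi' := Finset.mem_range.mp hi
    rw [countSeq_zero k (n + i) (by omega) (by omega)]
    simp
  rw [h3] at h2
  have h4 : (countSeq (sent k) (2 ^ T k) : ℤ) ≡ 1 [ZMOD 2] := by
    have := (Int.natCast_modEq_iff (n := 2)).mpr (countSeq_odd k)
    simpa using this
  have h5 : (1 : ℤ) ≡ 0 [ZMOD 2] := h4.symm.trans (by simpa using h2)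
  revert h5
  decide

end Pool.Agent.Lib.MP_b66a5a_lc
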